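import Pool.Agent.Lib.MP_aa40d3_nt.FK.Exch
import Pool.Agent.Lib.MP_aa40d3_nt.FK.Red

/-! The marks can be moved to any exchanges; the other members are arbitrary. -/

namespace Pool.Agent.GR.FS

open GC FB FK

variable {G : Type} [Group G] {d : ℕ} {b : BS G d} {ι : Type} [DecidableEq ι]

/-- A sequence of moves in terms of labels. -/
theorem hur_lab {L : List ι} (h0 : L.Nodup) {g : ι → G} {k : List G} (h : Hur (L.map g) k) :
    ∃ (L' : List ι) (g' : ι → G), L'.Perm L ∧ k = L'.map g' ∧ (∀ μ : ι → Mk,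
      Hur (L.map fun i => (g i, μ i)) (L'.map fun i => (g' i, μ i))) ∧
      ∀ i, ∃ γ, g' i = γ * g i * γ⁻¹ := by
  have key : ∀ {L' : List ι} {g' : ι → G} {A B : List G} {x y : G}, L'.Nodup →
      A ++ x :: y :: B = L'.map g' → ∃ L₁ a c L₂, L' = L₁ ++ a :: c :: L₂ ∧ A = L₁.map g' ∧
        x = g' a ∧ y = g' c ∧ B = L₂.map g' ∧ a ≠ c ∧ (∀ i ∈ L₁, i ≠ a ∧ i ≠ c) ∧
          ∀ i ∈ L₂, i ≠ a ∧ i ≠ c := fun {L' g' A B x y} hn e => by
    obtain ⟨L₁, L₃, rfl, rfl, e1⟩ := List.map_eq_append_iff.1 e.symm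
    obtain ⟨a, L₄, rfl, rfl, e2⟩ := List.map_eq_cons_iff.1 e1
    obtain ⟨c, L₂, rfl, rfl, rfl⟩ := List.map_eq_cons_iff.1 e2
    simp only [List.nodup_append, List.nodup_cons, List.mem_cons, not_or] at hn
    obtain ⟨-, ⟨⟨n1, n2⟩, n3, -⟩, n4⟩ := hn
    exact ⟨L₁, a, c, L₂, rfl, rfl, rfl, rfl, rfl, n1,
      fun i hi => ⟨n4 i hi a (Or.inl rfl), n4 i hi c (Or.inr (Or.inl rfl))⟩,
      fun i hi => ⟨fun e => n2 (e ▸ hi), fun e => n3 (e ▸ hi)⟩⟩
  induction h with
  | refl => exact ⟨L, g, .refl _, rfl, fun _ => Hur.refl _, fun i => ⟨1, by simp⟩⟩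
  | @left A B x y _ ih =>
    obtain ⟨L', g', h1, h2, h3, h4⟩ := ih
    obtain ⟨L₁, a, c, L₂, rfl, rfl, rfl, rfl, rfl, k1, k2, k3⟩ := key (h1.nodup_iff.2 h0) h2
    have e1 : ∀ T : List ι, (∀ i ∈ T, i ≠ a ∧ i ≠ c) → ∀ i ∈ T,
        Function.update g' a ((g' c)⁻¹ * g' a * g' c) i = g' i := fun T hT i hi =>
      Function.update_of_ne (hT i hi).1 _ _
    refine ⟨L₁ ++ c :: a :: L₂, Function.update g' a ((g' c)⁻¹ * g' a * g' c),
      ((List.Perm.swap _ _ _).append_left _).trans h1, ?_, fun μ => ?_, fun i => ?_⟩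
    · rw [List.map_append, List.map_cons, List.map_cons, List.map_congr_left (e1 _ k2),
        List.map_congr_left (e1 _ k3), Function.update_self, Function.update_of_ne k1.symm]
    · have h5 := h3 μ
      rw [List.map_append, List.map_cons, List.map_cons] at h5
      have h6 := h5.left
      rw [cj_mk] at h6
      rwa [List.map_append, List.map_cons, List.map_cons,
        List.map_congr_left (l := L₁) (g := fun i => (g' i, μ i)) fun i hi => by rw [e1 _ k2 i hi],
        List.map_congr_left (l := L₂) (g := fun i => (g' i, μ i)) fun i hi => by rw [e1 _ k3 i hi],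
        Function.update_self, Function.update_of_ne k1.symm]
    · obtain ⟨γ, hγ⟩ := h4 i
      by_cases e : i = a
      · subst e
        exact ⟨(g' c)⁻¹ * γ, by rw [Function.update_self, hγ]; group⟩
      · exact ⟨γ, by rw [Function.update_of_ne e, hγ]⟩
  | @right A B x y _ ih =>
    obtain ⟨L', g', h1, h2, h3, h4⟩ := ih
    obtain ⟨L₁, a, c, L₂, rfl, rfl, rfl, rfl, rfl, k1, k2, k3⟩ := key (h1.nodup_iff.2 h0) h2
    have e1 : ∀ T : List ι, (∀ i ∈ T, i ≠ a ∧ i ≠ c) → ∀ i ∈ T,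
        Function.update g' c (g' a * g' c * (g' a)⁻¹) i = g' i := fun T hT i hi =>
      Function.update_of_ne (hT i hi).2 _ _
    refine ⟨L₁ ++ c :: a :: L₂, Function.update g' c (g' a * g' c * (g' a)⁻¹),
      ((List.Perm.swap _ _ _).append_left _).trans h1, ?_, fun μ => ?_, fun i => ?_⟩
    · rw [List.map_append, List.map_cons, List.map_cons, List.map_congr_left (e1 _ k2),
        List.map_congr_left (e1 _ k3), Function.update_self, Function.update_of_ne k1]
    · have h5 := h3 μ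
      rw [List.map_append, List.map_cons, List.map_cons] at h5
      have h6 := h5.right
      have e2 : (g' a, μ a) * (g' c, μ c) * (g' a, μ a)⁻¹ = (g' a * g' c * (g' a)⁻¹, μ c) :=
        Prod.ext rfl (mul_inv_cancel_comm (μ a) (μ c))
      rw [e2] at h6
      rwa [List.map_append, List.map_cons, List.map_cons,
        List.map_congr_left (l := L₁) (g := fun i => (g' i, μ i)) fun i hi => by rw [e1 _ k2 i hi],
        List.map_congr_left (l := L₂) (g := fun i => (g' i, μ i)) fun i hi => by rw [e1 _ k3 i hi],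
        Function.update_self, Function.update_of_ne k1]
    · obtain ⟨γ, hγ⟩ := h4 i
      by_cases e : i = c
      · subst e
        exact ⟨g' a * γ, by rw [Function.update_self, hγ]; group⟩
      · exact ⟨γ, by rw [Function.update_of_ne e, hγ]⟩

theorem ex_sub {L : List ι} {g : ι → G} (h0 : L.Nodup) (hd : 3 ≤ d)
    (hs : ∀ x ∈ L.map g, b.IsSw x) (ht : b.Trans (gen (L.map g)) Finset.univ)
    {a c : ι} (ha : a ∈ L) (hc : c ∈ L) : Ex L g a c := by
  classical
  set H := gen (L.map g) with hH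
  let g' : ι → H := fun i => if h : i ∈ L then ⟨g i, mem_gen (List.mem_map_of_mem h)⟩ else 1
  have e : ∀ i ∈ L, (g' i).val = g i := fun i hi => by simp only [g', dif_pos hi]
  let b' : BS H d :=
    { π := b.π.comp H.subtype
      K := fun i => (b.K i).comap H.subtype
      fix := fun i x hx => b.fix i x hx
      conj := fun γ i x hx => b.conj γ i x hx
      sep := fun x hx => Subtype.ext (b.sep x hx) }
  have hsw : ∀ i ∈ L, ∃ u v, b'.Swap (g' i) u v := fun i hi => by
    obtain ⟨u, v, h⟩ := hs _ (List.mem_map_of_mem hi)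
    rw [← e i hi] at h
    exact ⟨u, v, h.1, h.2.1, Subtype.ext h.2.2.1, h.2.2.2⟩
  have e' : (L.map g').map H.subtype = L.map g := by
    rw [List.map_map]
    exact List.map_congr_left e
  have hg : gen (L.map g') = ⊤ := by
    apply Subgroup.map_injective H.subtype_injective
    rw [← MonoidHom.range_eq_map, Subgroup.range_subtype]
    refine (MonoidHom.map_closure _ _).trans (congrArg Subgroup.closure ?_)
    ext x
    rw [← e']
    exact List.mem_map.symm
  obtain ⟨u, v, h1⟩ := hsw a ha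
  obtain ⟨u', v', h2⟩ := hsw c hc
  have h3 := ex_all (b := b') (p := 1) h0 hd hg (fun x hx => by
    obtain ⟨i, hi, rfl⟩ := List.mem_map.1 hx
    exact Or.inl (hsw i hi)) (fun i hi j hj => by
    obtain ⟨x, hx, k⟩ := ht i hi j hj
    exact ⟨⟨x, hx⟩, trivial, k⟩) ha hc h1 h2
  intro μ
  have h4 := (h3 μ).map (FB.pm H.subtype)
  rw [List.map_map, List.map_map] at h4
  have k : ∀ ν : ι → Mk, L.map (FB.pm H.subtype ∘ fun i => (g' i, ν i)) =
      L.map fun i => (g i, ν i) := fun ν => List.map_congr_left fun i hi => Prod.ext (e i hi) rfl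
  rwa [k, k fun i => μ (Equiv.swap a c i)] at h4

theorem ex_norm {L : List ι} {g : ι → G} (h0 : L.Nodup) (hd : 3 ≤ d) {T R : List G}
    (h : Hur (L.map g) (T ++ R)) (hT : ∀ x ∈ T, b.IsSw x) (hR : ∀ x ∈ R, ¬ b.IsSw x)
    (ht : b.Trans (gen T) Finset.univ) {a c : ι} (ha : a ∈ L) (hc : c ∈ L) (ha' : b.IsSw (g a))
    (hc' : b.IsSw (g c)) : Ex L g a c := by
  obtain ⟨L', g', h1, h2, h3, h4⟩ := hur_lab h0 h
  obtain ⟨L₁, L₂, rfl, rfl, rfl⟩ := List.map_eq_append_iff.1 h2.symm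
  have k : ∀ i, b.IsSw (g i) → i ∉ L₂ := fun i hi hi' => by
    obtain ⟨γ, e⟩ := h4 i
    exact hR _ (List.mem_map_of_mem hi') (e ▸ hi.conj γ)
  have k' : ∀ i ∈ L, b.IsSw (g i) → i ∈ L₁ := fun i hi hi' =>
    (List.mem_append.1 (h1.mem_iff.2 hi)).resolve_right (k i hi')
  have h5 := ex_sub (h1.nodup_iff.2 h0).of_append_left hd hT ht (k' a ha ha') (k' c hc hc')
  intro μ
  refine ((h3 μ).trans ?_).trans (hur_symm (h3 fun i => μ (Equiv.swap a c i)))
  rw [List.map_append, List.map_append, List.map_congr_left (l := L₂)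
    (f := fun i => (g' i, μ (Equiv.swap a c i))) (g := fun i => (g' i, μ i)) fun i hi => by
      rw [Equiv.swap_apply_of_ne_of_ne (fun e : i = a => k a ha' (e ▸ hi))
        fun e : i = c => k c hc' (e ▸ hi)]]
  exact (h5 μ).app_right _

theorem pairQ_norm {Q : G → Prop} {l : List (G × Mk)} (hd : 3 ≤ d) {T R : List G}
    (hn : Hur (l.map Prod.fst) (T ++ R)) (hT : ∀ x ∈ T, b.IsSw x) (hR : ∀ x ∈ R, ¬ b.IsSw x)
    (ht : b.Trans (gen T) Finset.univ) (hc : ∃ z ∈ l, b.IsSw z.1 ∧ Mo z)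
    (h : PairH Mo (fun z => Q z.1) l) : PairQ b Q (l.map Prod.fst) := by
  classical
  rintro x y B h1 hx
  have hn1 := (hur_symm h1).trans hn
  obtain ⟨l₁, h2, h3⟩ := Hur.lift (MonoidHom.fst G Mk) h1
  replace h3 : l₁.map Prod.fst = x :: y :: B := h3
  have hc1 : ∃ z ∈ l₁, b.IsSw z.1 ∧ Mo z := by
    by_contra hn
    obtain ⟨z, hz, k⟩ := hc
    exact (hur_symm h2).all (P := fun z => ¬ (b.IsSw z.1 ∧ Mo z)) (fun γ w hw k' => hw
      ((and_congr (BS.isSw_conj γ.1) (mo_conj γ w)).1 k'))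
      (fun w hw k' => hn ⟨w, hw, k'⟩) z hz k
  rw [← h3] at hn1
  obtain ⟨x', l₂, rfl, rfl, h4⟩ := List.map_eq_cons_iff.1 h3
  obtain ⟨y', l₃, rfl, rfl, -⟩ := List.map_eq_cons_iff.1 h4
  obtain ⟨f, hf⟩ : ∃ f : Fin (l₃.length + 2) → G × Mk, f = (x' :: y' :: l₃).get := ⟨_, rfl⟩
  have hl : (List.finRange (l₃.length + 2)).map f = x' :: y' :: l₃ :=
    hf ▸ List.map_get_finRange (x' :: y' :: l₃)
  have f0 : f 0 = x' := by rw [hf]; rfl
  have f1 : f 1 = y' := by rw [hf]; rfl
  have hl' : (x' :: y' :: l₃).map Prod.fst = (List.finRange _).map fun a => (f a).1 := by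
    rw [← hl, List.map_map]
    rfl
  rw [hl'] at hn1
  obtain ⟨z, hz, k1⟩ := hc1
  rw [← hl] at hz
  obtain ⟨a, -, rfl⟩ := List.mem_map.1 hz
  have h5 := ex_norm (List.nodup_finRange _) hd hn1 hT hR ht (List.mem_finRange 0)
    (List.mem_finRange a) (f0 ▸ hx) k1.1 fun a => (f a).2
  rw [show ((List.finRange _).map fun a => ((f a).1, (f a).2)) = x' :: y' :: l₃ from hl] at h5
  rw [List.finRange_succ, List.finRange_succ] at h5
  simp only [List.map_cons] at h5
  have h6 := h [] _ _ _ (h2.trans h5) (Or.inl (by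
    change (f (Equiv.swap 0 a 0)).2 = mv
    rw [Equiv.swap_apply_left]
    exact k1.2))
  rw [← f0, ← f1]
  exact h6

end Pool.Agent.GR.FS
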