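import Pool.Agent.Lib.MP_aa40d3_nt.FS.SmallF
import Pool.Agent.Lib.MP_aa40d3_nt.FS.Exch
import Pool.Agent.Lib.MP_aa40d3_nt.FK.Big

/-! Primitive coverings with arbitrary special members. -/

open Matrix

namespace Pool.Agent.GR.FS

open GC NP FK

section
variable {G : Type} [Group G] {d s p k : ℕ} {Q : G → Prop} {l : List G} {b : BS G d}

/-- The hypotheses on the generators of the whole group. -/
structure Bg (b : BS G d) (s k : ℕ) (Q : G → Prop) (l : List G) : Prop where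
  gen : gen l = ⊤
  nf : ∃ T R, Hur l (T ++ R) ∧ GC.NF b s Finset.univ T R ∧ 2 * d + k ≤ T.length
  pair : PairQ b Q l
  mem : ∀ x ∈ l, Q x

theorem Bg.trans (h : Bg b s k Q l) : b.Trans ⊤ Finset.univ := fun i hi j hj => by
  obtain ⟨T, R, -, h1, -⟩ := h.nf
  exact (h1.tr i hi j hj).imp fun _ e => ⟨trivial, e.2⟩

theorem reduceT (hp : s < p) (h3 : 3 ≤ p) (hd : p + 1 ≤ d) (h : Bg b s (k + 1) Q l)
    (hc : ∀ γ x, Q x → Q (γ * x * γ⁻¹))
    (hb : ∀ P, b.π P = 1 → (∀ i, P ∈ b.K i ∨ ∃ u ∈ b.K i, Q (u * P)) → Q P) :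
    ∃ (S : Finset (Fin d)) (A : List G), S.card = p ∧ (∀ x ∈ A, ∃ c ∈ S, x ∈ b.K c) ∧
      b.Sup (gen A) S ∧ (∀ a ∈ S, ∀ c ∈ S, a ≠ c → ∃ z ∈ gen A, b.Swap z a c) ∧
      b.Agree ⊤ (gen A) S ∧ k ≤ b.cs A ∧ LK b.π Q A := by
  obtain ⟨hg, ⟨T, R, h1, h2, h4⟩, hQ, hl⟩ := h
  obtain ⟨c, hc'⟩ := Nat.exists_eq_add_of_le hd
  obtain ⟨S, -, hS, j, hj, i, hi, T', R', y, B, k1, k2, k3, k4, k5⟩ :=
    reduceS hp.le (by omega) c Finset.univ T R (by simp [hc']) h2 (by simp; omega)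
  have k6 : Hur l ((T' ++ R' ++ [y, y]) ++ B) := by simpa using h1.trans k1
  have hQ' : PairQ b Q (T' ++ R' ++ [y, y]) := fun u v C e =>
    hQ u v (C ++ B) (k6.trans (e.app_right B))
  have hA : ∀ a ∈ T' ++ R', a ∈ b.K j := fun a ha => k3.sup a (mem_gen ha) j hj
  refine ⟨S, T' ++ R', hS, fun x hx => ?_, k3.sup, fun a ha c hc hac => ?_, ?_, ?_,
    fun C C' hT hπ => ?_⟩
  · rcases List.mem_append.1 hx with hx | hx
    · exact (k3.sw x hx).sp.free (by omega)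
    · exact (k3.sp x hx).1.free (by omega)
  · exact (BS.conn_sub k3.sw k3.tr a ha c hc hac).imp fun z hz => ⟨gen_left _ _ hz.1, hz.2⟩
  · rwa [h1.gen, hg] at k5
  · rw [cs_nf k3.sw fun x hx => (k3.sp x hx).2]
    omega
  · rcases hπ with hπ | hπ
    · refine hb _ hπ fun c => ?_
      by_cases e : c ∈ S
      · obtain ⟨γ, hγ, rfl⟩ := k3.tr i hi c e
        exact Or.inr (cap hQ' (Hur.refl _) k2 hA hT (gen_left _ _ hγ))
      · exact Or.inl (k3.sup _ (hT.gen ▸ (gen (C ++ C')).list_prod_mem fun x hx =>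
          mem_gen (List.mem_append_left _ hx)) c e)
    · obtain ⟨w, rfl⟩ := List.length_eq_one_iff.1 hπ
      rw [List.prod_singleton]
      exact (k6.trans ((hT.app_right _).app_right _)).all hc hl w (by simp)

theorem sm_res {S : Finset (Fin d)} {A : List G} {b' : BS (gen A) d}
    (hπ : ∀ y, b'.π y = b.π y.val) (hK : ∀ y i, y ∈ b'.K i ↔ y.val ∈ b.K i) (hS : S.card = p)
    (h1 : ∀ x ∈ A, ∃ c ∈ S, x ∈ b.K c) (h2 : b.Sup (gen A) S)
    (h3 : ∀ a ∈ S, ∀ c ∈ S, a ≠ c → ∃ z ∈ gen A, b.Swap z a c) (h4 : k ≤ b.cs A) :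
    ∃ l' : List (gen A), l'.map (gen A).subtype = A ∧ Sm b' p k S l' := by
  classical
  let l' : List (gen A) := A.pmap Subtype.mk fun _ => mem_gen
  have hl' : l'.map (gen A).subtype = A := by
    simp only [l', List.map_pmap, Subgroup.coe_subtype, List.pmap_eq_map, List.map_id']
  have hm : ∀ x : gen A, x ∈ l' ↔ x.val ∈ A := fun x =>
    (List.mem_map_of_injective (gen A).subtype_injective).symm.trans
      (iff_of_eq (congrArg (fun L => x.val ∈ L) hl'))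
  have hs : ∀ (x : gen A) u v, b.Swap x.val u v → b'.Swap x u v := fun x u v ⟨e1, e2, e3, e4⟩ =>
    ⟨e1, (hπ x).trans e2, Subtype.ext e3, fun w a1 a2 => (hK x w).2 (e4 w a1 a2)⟩
  refine ⟨l', hl', hS, ?_, fun x hx => (h1 x ((hm x).1 hx)).imp fun c hc => ⟨hc.1, (hK x c).2 hc.2⟩,
    fun x _ j hj => (hK x j).2 (h2 x x.2 j hj), fun u hu v hv e => ?_, h4.trans ?_⟩
  · apply Subgroup.map_injective (gen A).subtype_injective
    rw [← MonoidHom.range_eq_map, Subgroup.range_subtype]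
    refine (MonoidHom.map_closure _ _).trans (congrArg Subgroup.closure ?_)
    ext x
    exact ⟨fun ⟨y, hy, e⟩ => e ▸ (hm y).1 hy, fun hx => ⟨⟨x, mem_gen hx⟩, (hm _).2 hx, rfl⟩⟩
  · obtain ⟨z, hz, k⟩ := h3 u hu v hv e
    exact ⟨⟨z, hz⟩, hs _ _ _ k⟩
  · conv_lhs => rw [← hl', BS.cs, List.countP_map]
    refine List.countP_mono_left fun x _ hx => ?_
    obtain ⟨i, j, hx⟩ := of_decide_eq_true hx
    exact decide_eq_true ⟨i, j, hs _ _ _ hx⟩

end

theorem finite_bigS (s r : ℕ) (hs : 2 ≤ s) (hr : 1 ≤ r) : ∃ k : ℕ, ∀ (d m : ℕ) (G : Type) [Group G]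
    (σ : G →* Mt m) (b : BR σ d) (l : List G), s + 2 ≤ d → (∀ i, (b.e i).rank = r) →
    Bg b.bs s k IsOfFinOrder l → Finite G := by
  obtain ⟨k, hk⟩ := finite_smallFS (s + 1) ((s + 1) * r) (by omega)
  refine ⟨k + 1, fun d m G _ σ b l hd hrk h => ?_⟩
  have h0 : ∀ i, b.e i ≠ 0 := fun i e => by
    have := hrk i
    rw [e, Matrix.rank_zero] at this
    omega
  obtain ⟨S, A, hS, h3, h4, h5, h6, h7, h8⟩ := reduceT s.lt_succ_self (by omega) hd h
    (fun γ x hx => (isConj_iff.2 ⟨γ, rfl⟩ : IsConj x (γ * x * γ⁻¹)).isOfFinOrder hx)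
    (fin_sheets b.bs)
  obtain ⟨i, hi⟩ : S.Nonempty := Finset.card_pos.1 (by omega)
  suffices Finite (gen A) from BS.finite_of_agree h.trans hi h6
  obtain ⟨m', σ', b', k1, k2, k3, k4, k5, -⟩ := b.restrict (gen A) h4
  obtain ⟨l', hl', hSm⟩ := sm_res (b := b.bs) (b' := b'.bs) k2 k3 hS h3 h4 h5 h7
  refine hk m' (k1.trans ?_) _ (gen A) σ' b' S l' (k5 i hi (h0 i)) hSm k4
    (LK.of_map (gen A).subtype (fun x => (k2 x).symm)
      (fun _ => (gen A).subtype_injective.isOfFinOrder_iff.1) (hl'.symm ▸ h8))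
  simp only [hrk, Finset.sum_const, hS, smul_eq_mul, le_refl]

theorem vu_bigS (s r : ℕ) (hs : 2 ≤ s) (hr : 1 ≤ r) : ∃ k : ℕ, ∀ (d m : ℕ) (G : Type) [Group G]
    (σ : G →* Mt m) (b : BR σ d) (l : List G), s + 2 ≤ d → (∀ i, (b.e i).rank = r) →
    Bg b.bs s k (fun x => QU (σ x)) l → VU σ := by
  obtain ⟨k, hk⟩ := vu_smallS (s + 1) ((s + 1) * r) (by omega)
  refine ⟨k + 1, fun d m G _ σ b l hd hrk h => ?_⟩
  have h0 : ∀ i, b.e i ≠ 0 := fun i e => by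
    have := hrk i
    rw [e, Matrix.rank_zero] at this
    omega
  have : Group.FG G := Group.fg_iff.2 ⟨_, h.gen, l.finite_toSet⟩
  obtain ⟨S, A, hS, h3, h4, h5, h6, h7, h8⟩ := reduceT s.lt_succ_self (by omega) hd h
    FBN.qu_conj (qu_sheets b)
  obtain ⟨i, hi⟩ : S.Nonempty := Finset.card_pos.1 (by omega)
  obtain ⟨m', σ', b', k1, k2, k3, k4, k5, k6, k7⟩ := restrictQ b (gen A) h4
  refine vu_of_agree b h.trans hi h6 (k7 ?_)
  obtain ⟨l', hl', hSm⟩ := sm_res (b := b.bs) (b' := b'.bs) k2 k3 hS h3 h4 h5 h7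
  refine hk m' (k1.trans ?_) _ (gen A) σ' b' S l' (k5 i hi (h0 i)) hSm k4
    (LK.of_map (gen A).subtype (fun x => (k2 x).symm) (Q' := fun x => QU (σ x)) k6
      (hl'.symm ▸ h8))
  simp only [hrk, Finset.sum_const, hS, smul_eq_mul, le_refl]

end Pool.Agent.GR.FS
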