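import Pool.Agent.Lib.MP_aa40d3_nt.GD.Fld
import Pool.Agent.Lib.MP_aa40d3_nt.GD.WWdet
import Pool.Agent.Lib.MP_aa40d3_nt.GE.RA
import Pool.Agent.Lib.MP_aa40d3_nt.FK.PrimZ

/-! Coverings without intermediate coverings. -/

open Polynomial Matrix
open scoped Polynomial.Bivariate IntermediateField

namespace Pool.Agent.GR.FS

open CV GC Pool.Agent.GR.GE

variable {n N d : ℕ}

/-- A function on the curve is a function of `x` or generates the function field. -/
def PrimP (P : ℂ[X][Y]) : Prop := ∀ a : ℂ[X][Y], (∃ q c : ℂ[X], q ≠ 0 ∧ P ∣ C q * a - C c) ∨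
  ∀ b, ∃ (q : ℂ[X]) (h : ℂ[X][Y]), q ≠ 0 ∧ P ∣ C q * b - h.comp a

/-- The same for an algebra of matrices. -/
def PrimW (W : Subalgebra ℂ[X] (PM N)) : Prop := ∀ Φ ∈ W,
  (∃ q c : ℂ[X], q ≠ 0 ∧ q • Φ = c • (1 : PM N)) ∨
    ∀ Ψ ∈ W, ∃ (q : ℂ[X]) (h : ℂ[X][Y]), q ≠ 0 ∧ q • Ψ = aeval Φ h

theorem primP_of_field {F : Type} [Field F] [Algebra ℂ F] [IsFF F] {z w : F} {P : ℂ[X][Y]}
    (hM : GE.Model z w P) (h : ∀ K : IntermediateField ℂ⟮z⟯ F, K = ⊥ ∨ K = ⊤) : PrimP P := by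
  intro a
  have := IsFF.fin hM.tr
  have hC : ∀ c : ℂ[X], aevalAeval z w (C c) = aeval z c := fun c => by simp
  rcases h ℂ⟮z⟯⟮aevalAeval z w a⟯ with e | e
  · have h1 := IntermediateField.mem_adjoin_simple_self ℂ⟮z⟯ (aevalAeval z w a)
    rw [e, IntermediateField.mem_bot] at h1
    obtain ⟨v, hv⟩ := h1
    obtain ⟨r, s, h2⟩ := (IntermediateField.mem_adjoin_simple_iff ℂ _).1 v.2
    have h3 : aevalAeval z w a = aeval z r / aeval z s := hv.symm.trans h2
    by_cases hs : aeval z s = 0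
    · refine Or.inl ⟨1, 0, one_ne_zero, hM.dvd ?_⟩
      rw [map_sub, map_mul, h3, hs, div_zero, mul_zero, map_zero, map_zero, sub_zero]
    · refine Or.inl ⟨s, r, fun e => hs (by rw [e, map_zero]), hM.dvd ?_⟩
      rw [map_sub, map_mul, h3, hC, hC, mul_div_cancel₀ _ hs, sub_self]
  · refine Or.inr fun b => ?_
    let _ := (ra2_ev z).toAlgebra
    have := ra2_frac hM.tr
    have hu : aevalAeval z w b ∈ (ℂ⟮z⟯⟮aevalAeval z w a⟯).toSubalgebra := by rw [e]; trivial
    rw [IntermediateField.adjoin_simple_toSubalgebra_of_isAlgebraic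
      (Algebra.IsAlgebraic.isAlgebraic _), Algebra.adjoin_singleton_eq_range_aeval] at hu
    obtain ⟨p, hp⟩ := hu
    obtain ⟨c, hc, e'⟩ := IsLocalization.integerNormalization_spec (nonZeroDivisors ℂ[X]) p
    have e1 : aevalAeval z (aevalAeval z w a)
        (IsLocalization.integerNormalization (nonZeroDivisors ℂ[X]) p) =
        aeval z c * aeval (aevalAeval z w a) p := by
      rw [← ra2_map, ← ra2_coe, ← Algebra.smul_def, ← map_smul]
      exact congrArg _ (e'.trans (algebraMap_smul ℂ⟮z⟯ c p).symm)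
    have e2 : ∀ k : ℂ[X][Y], aevalAeval z w (k.comp a) = aevalAeval z (aevalAeval z w a) k :=
      fun k => by
        induction k using Polynomial.induction_on' with
        | add p q hp hq => rw [add_comp, map_add, map_add, hp, hq]
        | monomial n c => simp [← C_mul_X_pow_eq_monomial]
    refine ⟨c, IsLocalization.integerNormalization (nonZeroDivisors ℂ[X]) p,
      nonZeroDivisors.ne_zero hc, hM.dvd ?_⟩
    rw [map_sub, map_mul, e2, e1, hC, ← hp]
    exact sub_self _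

theorem aeval_tw {R : Type} [CommRing R] {Φ G M : Matrix (Fin N) (Fin N) R} (h : Φ * G = G * M)
    (k : R[X]) : aeval Φ k * G = G * aeval M k := by
  induction k using Polynomial.induction_on with
  | C c => rw [aeval_C, aeval_C, Algebra.commutes]
  | add p q hp hq => rw [map_add, map_add, add_mul, mul_add, hp, hq]
  | monomial n c ih =>
    rw [pow_succ, ← mul_assoc, map_mul, map_mul _ _ X, aeval_X, aeval_X, mul_assoc, h, ← mul_assoc,
      ih, mul_assoc]

theorem aeval_diag {R K : Type} [CommRing R] [Field K] {φ : R →+* K} {V : Matrix (Fin N) (Fin N) K}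
    {Mu : Matrix (Fin N) (Fin N) R} {y : Fin N → K} (hM : Mu.map φ * V = V * diagonal y)
    (k : R[X]) : (aeval Mu k).map φ * V = V * diagonal fun j => (k.map φ).eval (y j) := by
  induction k using Polynomial.induction_on with
  | C c =>
    rw [aeval_C, Algebra.algebraMap_eq_smul_one, wdr_map_smul,
      Matrix.map_one _ (map_zero _) (map_one _)]
    ext a b
    simp [mul_comm]
  | add p q hp hq =>
    rw [map_add, Matrix.map_add _ (map_add φ), add_mul, hp, hq, ← mul_add, diagonal_add]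
    simp
  | monomial n c ih =>
    rw [pow_succ, ← mul_assoc, map_mul, aeval_X, Matrix.map_mul, mul_assoc, hM, ← mul_assoc, ih,
      mul_assoc, diagonal_mul_diagonal]
    simp [mul_assoc]

theorem primW_WW {x : CV.LL} {V : LM N} {sh : Fin N → Fin d} {ρ : ℂ[X]} {G Mu : PM N}
    {y : Fin d → CV.LL} {e : Fin d → Fin N} {o : Fin N} {P : ℂ[X][Y]} (hP : PrimP P)
    (h0 : ∀ j, aevalAeval x (y j) P = 0) (hx : Function.Injective (ev x))
    (hρ : ρ ≠ 0) (hV : V.det ≠ 0) (hG : G.det ≠ 0)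
    (hM : Mu.map (ev x) * V = V * diagonal fun j => y (sh j)) (hy : Function.Injective y)
    (hp : ∀ k j : Fin d, (Mu ^ (k : ℕ)) (e j) o = if j = k then 1 else 0) :
    PrimW (CV.WW x (ga ρ G x V) sh) := by
  have h1 : aeval Mu P = 0 := by
    have h2 := aeval_diag (K := CV.LL) hM P
    simp only [← sep_eval, h0, diagonal_zero, Matrix.mul_zero] at h2
    refine Matrix.map_injective hx ?_
    exact (((isUnit_iff_isUnit_det V).2 hV.isUnit).mul_left_eq_zero.1 h2).trans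
      (Matrix.map_zero _ (map_zero _)).symm
  have h2 : ∀ {a b : ℂ[X][Y]}, P ∣ a - b → aeval Mu a = aeval Mu b := fun ⟨c, hc⟩ => by
    rw [← sub_eq_zero, ← map_sub, hc, map_mul, h1, zero_mul]
  have h3 : ∀ Φ ∈ CV.WW x (ga ρ G x V) sh, ∃ a : ℂ[X][Y], (G.det • Φ) * G = G * aeval Mu a :=
    fun Φ hΦ => ⟨∑ k : Fin d, C ((G.adjugate * Φ * G) (e k) o) * Y ^ (k : ℕ), by
      rw [Matrix.smul_mul, WW_rep hx hρ hV hM hy hp hΦ, map_sum]
      simp only [map_mul, aeval_C, map_pow, aeval_X, Algebra.smul_def]⟩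
  have h4 : ∀ {u v : PM N}, u * G = v * G → u = v := fun {u v} h => by
    have h5 := congrArg (· * G.adjugate) h
    simp only [Matrix.mul_assoc, mul_adjugate, Matrix.mul_smul, Matrix.mul_one] at h5
    exact smul_right_injective _ hG h5
  intro Φ hΦ
  obtain ⟨a, ha⟩ := h3 Φ hΦ
  rcases hP a with ⟨q, c, hq, h⟩ | h
  · refine Or.inl ⟨q * G.det, c, mul_ne_zero hq hG, h4 ?_⟩
    have h5 := h2 h
    rw [map_mul, aeval_C, aeval_C, ← Algebra.smul_def, Algebra.algebraMap_eq_smul_one] at h5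
    rw [mul_smul, Matrix.smul_mul, ha, ← Matrix.mul_smul, h5, Matrix.mul_smul, Matrix.smul_mul,
      Matrix.mul_one, Matrix.one_mul]
  · refine Or.inr fun Ψ hΨ => ?_
    obtain ⟨b, hb⟩ := h3 Ψ hΨ
    obtain ⟨q, k, hq, h5⟩ := h b
    refine ⟨q * G.det, k.comp (C G.det * Y), mul_ne_zero hq hG, h4 ?_⟩
    have h6 := h2 h5
    rw [map_mul, aeval_C, ← Algebra.smul_def, aeval_comp] at h6
    rw [aeval_comp, map_mul, aeval_C, aeval_X, ← Algebra.smul_def, aeval_tw ha, mul_smul,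
      Matrix.smul_mul, hb, ← Matrix.mul_smul, h6]

theorem rank_le_of_mul {R M : Type*} [CommRing R] [IsDomain R] [IsNoetherianRing R] [AddCommGroup M]
    [Module R M] [Module.Finite R M] {P Q : Submodule R M}
    (h : ∀ x ∈ P, ∃ q : R, q ≠ 0 ∧ q • x ∈ Q) : Module.finrank R P ≤ Module.finrank R Q := by
  obtain ⟨f, hf⟩ := exists_linearIndependent_of_le_finrank (R := R) (M := P) le_rfl
  choose q hq hm using fun i => h _ (f i).2
  have h1 : LinearIndependent R fun i => (⟨q i • (f i).1, hm i⟩ : Q) := by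
    rw [Fintype.linearIndependent_iff] at hf ⊢
    intro g hg i
    refine (mul_eq_zero.1 (hf (fun i => g i * q i) (Subtype.ext ?_) i)).resolve_right (hq i)
    simpa [mul_smul] using congrArg Subtype.val hg
  simpa using h1.fintype_card_le_finrank

theorem primW_aeval {U : Set ℂ} {T : ℂ → Mat N} {B : Subalgebra ℂ (Mat N)} {Θ : PM N}
    (h : Θ ∈ primW U T (Subalgebra.toSubmodule B)) (k : ℂ[X][X]) :
    aeval Θ k ∈ primW U T (Subalgebra.toSubmodule B) := by
  induction k using Polynomial.induction_on with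
  | C c =>
    rw [aeval_C, Algebra.algebraMap_eq_smul_one]
    exact Submodule.smul_mem _ _ fun x _ => ⟨1, B.one_mem, by
      rw [Matrix.map_one _ eval_zero eval_one, Matrix.one_mul, Matrix.mul_one]⟩
  | add p q hp hq => exact map_add (aeval Θ) p q ▸ Submodule.add_mem _ hp hq
  | monomial n c ih =>
    intro x hx
    obtain ⟨z, hz, e⟩ := ih x hx
    obtain ⟨z', hz', e'⟩ := h x hx
    refine ⟨z * z', B.mul_mem hz hz', ?_⟩
    rw [pow_succ, ← mul_assoc, map_mul, aeval_X, show eval x = evalRingHom x from rfl,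
      Matrix.map_mul, coe_evalRingHom, Matrix.mul_assoc, e', ← Matrix.mul_assoc, e,
      Matrix.mul_assoc]

theorem PrimW.primZ [NeZero N] {Γ : Subgroup (Mat N)ˣ} {U : Set ℂ} (hU : U.Infinite) {x₀ : ℂ}
    {T : ℂ → Mat N} (hY : ∀ x ∈ U, (T x).det ≠ 0) {W : Subalgebra ℂ[X] (PM N)} (h : PrimW W)
    (hW : ∀ Φ ∈ W, Φ ∈ primW U T (Subalgebra.toSubmodule (GC.fib W x₀)))
    (ho : ∀ Z : Submodule ℂ (Mat N), MP.InvS Γ Z → ∀ z ∈ Z,
      ∃ Φ ∈ primW U T Z, ∃ c : ℂ, c ≠ 0 ∧ Φ.map (eval x₀) = c • z) :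
    PrimZ (incl Γ) (GC.fib W x₀) := by
  intro B hB hi
  have h0 := ho (Subalgebra.toSubmodule B) fun γ hγ y hy => hi ⟨γ, hγ⟩ y hy
  refine or_iff_not_imp_left.2 fun hn => ?_
  push Not at hn
  obtain ⟨z, hz, hn⟩ := hn
  obtain ⟨Φ, hΦ, c, hc, e⟩ := h0 z hz
  have r1 := fib_rank hU hY hW
  have r2 := MP.fact_rank (x₀ := x₀) hU hY (Z := Subalgebra.toSubmodule (GC.fib W x₀))
    (fun z hz => by
      obtain ⟨Ψ, hΨ, e'⟩ := mem_fib.1 hz
      exact ⟨Ψ, hW Ψ hΨ, 1, one_ne_zero, by rw [one_smul, e']⟩)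
  obtain ⟨q, hq, hqΦ⟩ := fld_sat (P := Subalgebra.toSubmodule W) (fun Ψ hΨ => hW Ψ hΨ)
    (r2.trans r1) (x := Φ) fun x hx => (hΦ x hx).imp fun z hz => ⟨hB hz.1, hz.2⟩
  rcases h _ hqΦ with ⟨p, s, hp, h1⟩ | h1
  · refine absurd ?_ (hn (c⁻¹ * (Φ 0 0).eval x₀))
    have h2 : Φ = Φ 0 0 • (1 : PM N) := smul_right_injective _ (mul_ne_zero hp hq) (by
      have h3 := congrFun (congrFun h1 0) 0
      simp only [Matrix.smul_apply, Matrix.one_apply_eq, smul_eq_mul, mul_one] at h3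
      simp only []
      rw [smul_smul, mul_assoc, h3, ← h1, smul_smul])
    rw [mul_smul, eq_inv_smul_iff₀ hc, ← e]
    conv_lhs => rw [h2]
    ext a b
    by_cases hab : a = b <;> simp [hab]
  · have r3 := rank_le_of_mul (P := Subalgebra.toSubmodule W)
      (Q := primW U T (Subalgebra.toSubmodule B)) fun Ψ hΨ => by
        obtain ⟨p, k, hp, h2⟩ := h1 Ψ hΨ
        exact ⟨p, hp, h2 ▸ primW_aeval (Submodule.smul_mem _ q hΦ) k⟩
    rw [MP.fact_rank hU hY h0] at r3
    have h2 := Submodule.eq_of_le_of_finrank_le (S₁ := Subalgebra.toSubmodule B)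
      (S₂ := Subalgebra.toSubmodule (GC.fib W x₀)) hB (r1.le.trans r3)
    exact fun y hy => h2.ge hy

end Pool.Agent.GR.FS
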