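import Pool.Agent.Lib.MP_aa40d3_nt.FK.CovP
import Pool.Agent.Lib.MP_aa40d3_nt.FS.PrimW

/-! Direct images along connected coverings with special fibres. -/

open Polynomial Matrix

namespace Pool.Agent.GR.FS

open GC NP FK

variable {n N : ℕ}

/-- As `CoverK`; at the other points the system is regular on `e` sheets, and the covering is
primitive unless `E` holds. -/
def CoverS (E : Prop) (Mov : Finset (Fin n)) (r d e : ℕ) (t : Fin n → ℂ)
    (A : Fin n → Matrix (Fin N) (Fin N) ℂ) : Prop :=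
  ∃ W : Subalgebra ℂ[X] (Matrix (Fin N) (Fin N) ℂ[X]), (∀ Φ ∈ W, Φ ≠ 0 → Φ.det ≠ 0) ∧
    (∀ Φ ∈ W, dl t • Φ.map derivative - (pm t A * Φ - Φ * pm t A) ∈ W) ∧
      (∀ Φ ∈ W, ∀ Ψ ∈ W, Φ * Ψ = Ψ * Φ) ∧ Module.finrank ℂ[X] W = d ∧
      (∀ i ∈ Mov, RamAt t A W i ∧ ASp (N - r) t A i) ∧
      (∀ i, i ∉ Mov → ASp N t A i ∨ AEp r e t A W i) ∧ (E ∨ PrimW W)

theorem CoverS.aff {E : Prop} {Mov : Finset (Fin n)} {r d e : ℕ} {t t' : Fin n → ℂ} {c b : ℂ}
    (hc : c ≠ 0) (ht : ∀ i, t i = c * t' i + b) {A : Fin n → Matrix (Fin N) (Fin N) ℂ}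
    (h : CoverS E Mov r d e t' A) : CoverS E Mov r d e t A := by
  obtain ⟨W', hI, hW', hcm, hrk, hr, hp, hE⟩ := h
  have ht' : ∀ i, t' i = c⁻¹ * t i + -(c⁻¹ * b) := fun i => by
    rw [ht i]
    field_simp
    ring
  have : Invertible c := invertibleOfNonzero hc
  let φ : ℂ[X] →+* ℂ[X] := compRingHom (C c * X + C b)
  have hφ : ∀ q, φ q = q.comp (C c * X + C b) := fun q => rfl
  have hψ : ∀ q : ℂ[X], algEquivCMulXAddC c b q = φ q := fun q => by
    rw [algEquivCMulXAddC_apply, hφ, comp_eq_aeval]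
  let M : Matrix (Fin N) (Fin N) ℂ[X] →+* Matrix (Fin N) (Fin N) ℂ[X] := φ.mapMatrix
  have hM : ∀ Φ x y, M Φ x y = φ (Φ x y) := fun Φ x y => rfl
  have hsm : ∀ (q : ℂ[X]) Φ, M (q • Φ) = φ q • M Φ := fun q Φ => Matrix.ext fun x y => by
    rw [hM, Matrix.smul_apply, Matrix.smul_apply, smul_eq_mul, smul_eq_mul, map_mul, hM]
  have hs : ∀ Ψ, ∃ Φ, M Φ = Ψ := fun Ψ =>
    ⟨Ψ.map (algEquivCMulXAddC c b).symm, Matrix.ext fun x y => by
      rw [hM, Matrix.map_apply, ← hψ, AlgEquiv.apply_symm_apply]⟩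
  have hi : Function.Injective M := fun Φ Ψ e => Matrix.ext fun x y =>
    (algEquivCMulXAddC c b).injective (by rw [hψ, hψ, ← hM, ← hM, e])
  have h2 : (C c : ℂ[X]) • M (pm t A) = (C c ^ n : ℂ[X]) • pm t' A :=
    Matrix.ext fun x y => aff_pm ht A x y
  have h3 : ∀ Φ, (M Φ).map derivative = (C c : ℂ[X]) • M (Φ.map derivative) := fun Φ =>
    Matrix.ext fun x y => by
      rw [Matrix.map_apply, Matrix.smul_apply, hM, hM, Matrix.map_apply, hφ, hφ, derivative_comp,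
        derivative_add, derivative_C, derivative_C_mul_X, add_zero, smul_eq_mul]
  let W : Subalgebra ℂ[X] (Matrix (Fin N) (Fin N) ℂ[X]) :=
    { W'.toSubsemiring.comap M with
      algebraMap_mem' := fun q => by
        change M (algebraMap _ _ q) ∈ W'
        rw [Algebra.algebraMap_eq_smul_one, hsm, map_one]
        exact W'.smul_mem W'.one_mem _ }
  have hmem : ∀ Φ, Φ ∈ W ↔ M Φ ∈ W' := fun Φ => Iff.rfl
  refine ⟨W, fun Φ hΦ h4 h5 => ?_, fun Φ hΦ => ?_, fun Φ hΦ Ψ hΨ => hi ?_, ?_,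
    fun i hi => ⟨?_, (hr i hi).2.aff (inv_ne_zero hc) ht'⟩, fun i hi =>
      (hp i hi).imp (fun h => h.aff (inv_ne_zero hc) ht') fun h => h.aff (inv_ne_zero hc) ht'
        fun Φ hΦ => ⟨M Φ, hΦ, fun x => Matrix.ext fun u v => ?_⟩,
    hE.imp_right fun h Φ hΦ => ?_⟩
  · refine hI _ hΦ (fun e => h4 (hi (e.trans (map_zero M).symm))) ?_
    rw [← RingHom.map_det, h5, map_zero]
  · rw [hmem] at hΦ ⊢
    have h1 := W'.smul_mem (W'.smul_mem (hW' _ hΦ) (C c ^ n)) (C c⁻¹)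
    have e : (C c ^ n : ℂ[X]) • (dl t' • (M Φ).map derivative - (pm t' A * M Φ - M Φ * pm t' A)) =
        (C c : ℂ[X]) • M (dl t • Φ.map derivative - (pm t A * Φ - Φ * pm t A)) := by
      rw [map_sub, map_sub, map_mul, map_mul, hsm, hφ, aff_dl ht, h3, smul_sub, smul_sub, smul_sub,
        smul_sub, ← Matrix.smul_mul, ← Matrix.smul_mul (C c), ← Matrix.mul_smul,
        ← Matrix.mul_smul _ (C c), h2, smul_smul, smul_smul, smul_smul, mul_comm (C c)]
    rwa [e, smul_smul, ← map_mul, inv_mul_cancel₀ hc, map_one, one_smul] at h1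
  · rw [map_mul, map_mul]
    exact hcm _ hΦ _ hΨ
  · let j : W →+ W' :=
      { toFun := fun Φ => ⟨M Φ.1, Φ.2⟩
        map_zero' := Subtype.ext (map_zero M)
        map_add' := fun u v => Subtype.ext (map_add M u.1 v.1) }
    have hj : Function.Bijective j := ⟨fun u v e => Subtype.ext (hi (congrArg Subtype.val e)),
      fun Ψ => (hs Ψ.1).elim fun Φ e => ⟨⟨Φ, (hmem Φ).2 (e ▸ Ψ.2)⟩, Subtype.ext e⟩⟩
    rw [← hrk, Module.finrank, Module.finrank, rank_eq_of_equiv_equiv (algEquivCMulXAddC c b)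
      (AddEquiv.ofBijective j hj) (algEquivCMulXAddC c b).bijective
      fun q u => Subtype.ext ((hsm q u.1).trans (by rw [hψ]; rfl))]
  · obtain ⟨Ψ, hΨ, hΨ'⟩ := (hr i hi).1
    obtain ⟨Θ, rfl⟩ := hs Ψ
    have e : (M Θ).map (eval (t' i)) = Θ.map (eval (t i)) := Matrix.ext fun x y => by
      rw [Matrix.map_apply, Matrix.map_apply, hM, hφ, eval_comp, ht i, eval_add, eval_mul, eval_C,
        eval_X, eval_C]
    exact ⟨Θ, hΨ, e ▸ hΨ'⟩
  · let ψ : ℂ[X] →+* ℂ[X] := (algEquivCMulXAddC c b).symm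
    have h4 : ∀ q, φ (ψ q) = q := fun q => (hψ _).symm.trans (AlgEquiv.apply_symm_apply _ q)
    have h5 : ∀ {q}, q ≠ 0 → ψ q ≠ 0 := fun {q} hq e => hq (by rw [← h4 q, e, map_zero])
    rcases h _ hΦ with ⟨q, s, hq, h6⟩ | h6
    · exact Or.inl ⟨ψ q, ψ s, h5 hq, hi (by rw [hsm, hsm, h4, h4, map_one, h6])⟩
    · refine Or.inr fun Ψ hΨ => ?_
      obtain ⟨q, k, hq, h7⟩ := h6 _ hΨ
      refine ⟨ψ q, k.map ψ, h5 hq, hi ?_⟩
      rw [hsm, h4, h7, map_aeval_eq_aeval_map (φ := φ) (ψ := M) (RingHom.ext fun q => by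
        rw [RingHom.comp_apply, RingHom.comp_apply, Algebra.algebraMap_eq_smul_one,
          Algebra.algebraMap_eq_smul_one, hsm, map_one]), Polynomial.map_map,
        show φ.comp ψ = RingHom.id _ from RingHom.ext h4, Polynomial.map_id]
  · rw [Matrix.map_apply, Matrix.map_apply, hM, hφ, eval_comp, eval_add, eval_mul, eval_C, eval_X,
      eval_C]
    congr 1
    field_simp
    ring

end Pool.Agent.GR.FS
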