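import Pool.Agent.Lib.MP_aa40d3_nt.FS.Big
import Pool.Agent.Lib.MP_aa40d3_nt.FK.She
import Pool.Agent.Lib.MP_aa40d3_nt.FK.PrimZ

/-! The monodromy group of a primitive covering with one movable branch point. -/

open Matrix

namespace Pool.Agent.GR.FS

open GC FB NP FK CV

section
variable {m r d s : ℕ}

theorem sp_of_she {G : Type} [Group G] {σ : G →* Mt m} (b : BR σ d) (hr : 1 ≤ r)
    (hk : ∀ i, (b.e i).rank = r) {Z : Subalgebra ℂ (Mt m)} (hZ : ∀ i, b.e i ∈ Z) {x : G}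
    (h : She r (d - s) (σ x) Z) : b.bs.Sp s x := by
  classical
  obtain ⟨u, hu, hx, hE⟩ := h
  choose τ hτ using fun i => hE _ (hZ i)
  have h1 : ∀ k : Fin (d - s), ∃ i, ∀ a : Fin r, u (ix a k) ᵥ* b.e i = u (ix a k) := fun k => by
    have h0 := hu.ne_zero (ix ⟨0, hr⟩ k)
    obtain ⟨i, hi⟩ : ∃ i, τ i k ≠ 0 := by
      by_contra hc
      push Not at hc
      refine h0 ?_
      rw [← vecMul_one (u _), ← b.sum, vecMul_sum]
      exact Finset.sum_eq_zero fun i _ => by rw [hτ, sh_ix, hc, zero_smul]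
    have h2 := congrArg (u (ix ⟨0, hr⟩ k) ᵥ* ·) (b.idem i)
    simp only [← vecMul_vecMul, hτ, smul_vecMul, sh_ix, smul_smul] at h2
    have h3 : τ i k = 1 :=
      mul_left_cancel₀ hi ((smul_left_injective ℂ h0 h2).trans (mul_one _).symm)
    exact ⟨i, fun a => by rw [hτ, sh_ix, h3, one_smul]⟩
  choose f hf using h1
  have hi : ∀ k : Fin (d - s), Function.Injective fun a : Fin r => (ix a k : Fin (r * (d - s))) :=
    fun k a a' h => by simpa using congrArg co h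
  have h2 := fun k => span_rows (hk (f k)) (hu.comp _ (hi k)) (hf k)
  have h3 : Function.Injective f := fun k k' h => by
    by_contra hne
    have h4 := h2 k (u (ix ⟨0, hr⟩ k'))
    rw [h, hf, Set.range_comp] at h4
    refine hu.notMem_span_image ?_ h4
    rintro ⟨a, ha⟩
    exact hne (by simpa using congrArg sh ha)
  have h4 : ∀ k, x ∈ b.K (f k) := fun k => by
    have h5 : b.e (f k) * σ x = b.e (f k) := by
      refine Matrix.ext_iff_vecMul.2 fun w => ?_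
      rw [← vecMul_vecMul]
      exact LinearMap.eqOn_span (f := (σ x).vecMulLinear) (g := LinearMap.id)
        (by rintro _ ⟨a, rfl⟩; exact hx _) (h2 k w)
    have h6 : b.π x (f k) = f k := by
      by_contra hc
      have h7 := b.act x (f k)
      have h8 : b.e (f k) = 0 :=
        calc b.e (f k) = b.e (f k) * σ x * b.e (f k) := by rw [h5, b.idem]
          _ = 0 := by
            rw [Matrix.mul_assoc, h7, ← Matrix.mul_assoc, b.orth _ _ (Ne.symm hc), Matrix.zero_mul]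
      have := hk (f k)
      rw [h8, rank_zero] at this
      omega
    exact ⟨h6, by rw [b.act, h6, h5]⟩
  refine ⟨(Finset.univ.image f)ᶜ, ?_, fun l hl => ?_⟩
  · rw [Finset.card_compl, Finset.card_image_of_injective _ h3]
    simp only [Fintype.card_fin, Finset.card_univ]
    omega
  · obtain ⟨k, -, rfl⟩ := Finset.mem_image.1 (not_not.1 (mt Finset.mem_compl.2 hl))
    exact h4 k

end

theorem group_pre {r s k d n : ℕ} (hr : 1 ≤ r) (hd : 3 ≤ d) {Mov Bs : Finset (Fin n)}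
    {g : Fin n → GLr (r * d)} {ρ : Fin n → ℝ} (hρ : Function.Injective ρ) {Q : GLr (r * d) → Prop}
    (ho : ∀ L, LowerL ρ L → (∀ a, a ∈ L) → PairH Mo (fun x => Q x.1) (L.map (mkd Mov g)))
    (hinf : ∀ L, LowerL ρ L → (∀ a, a ∈ L) → (L.map g).prod = 1)
    {Z : Subalgebra ℂ (Mt (r * d))} (hI : SimpZ (incl (Subgroup.closure (Set.range g))) Z)
    (hZ : ∀ γ ∈ Subgroup.closure (Set.range g), ∀ x ∈ Z, γ.val * x * (γ⁻¹).val ∈ Z)
    (hc : CommA Z) (hfr : Module.finrank ℂ Z = d) (hM : ∃ a ∈ Mov, a ∈ Bs)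
    (hMa : ∀ a ∈ Bs, ((g a).val - 1).rank ≤ r ∧ ∃ x ∈ Z, (g a).val * x ≠ x * (g a).val)
    (hP : ∀ a, a ∉ Bs → g a = 1 ∨ She r (d - s) (g a).val Z) (hq : ∀ a, Q (g a))
    (hB : 2 * d + (k + 1) ≤ Bs.card) (hpr : (∀ e, e ∣ d → 1 < e → e < d → s < 2 * e) ∨
      PrimZ (incl (Subgroup.closure (Set.range g))) Z) :
    ∃ (b : BR (incl (Subgroup.closure (Set.range g))) d)
      (l : List (Subgroup.closure (Set.range g))), (∀ i, (b.e i).rank = r) ∧
      Bg b.bs (max s 2) (k + 1) (fun x => Q x.val) l := by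
  classical
  obtain ⟨L0, h1, h2⟩ := exists_lowerL hρ Finset.univ fun _ _ _ _ => Finset.mem_univ _
  have h0 : L0.Nodup := h1.1.imp fun hab e => hab.ne (congrArg _ e)
  have hall : ∀ a, a ∈ L0 := fun a => List.mem_toFinset.1 (h2 ▸ Finset.mem_univ a)
  set Γ := Subgroup.closure (Set.range g) with hΓ
  let g' : Fin n → Γ := fun a => ⟨g a, Subgroup.subset_closure ⟨a, rfl⟩⟩
  have hg : Subgroup.closure (Set.range g') = ⊤ := by
    apply Subgroup.map_injective Γ.subtype_injective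
    rw [MonoidHom.map_closure, ← Set.range_comp, ← MonoidHom.range_eq_map, Subgroup.range_subtype]
    rfl
  have hf : PairH Mo (fun x => Q x.1.val) (L0.map (mkd Mov g')) := by
    have e : (L0.map (mkd Mov g')).map (FB.pm Γ.subtype) = L0.map (mkd Mov g) := by
      rw [List.map_map]
      rfl
    have k := ho L0 h1 hall
    rw [← e] at k
    exact k.of_map (FB.pm Γ.subtype)
  have hfst : (L0.map (mkd Mov g')).map Prod.fst = L0.map g' := by
    rw [List.map_map]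
    rfl
  have hZ' : InvR (incl Γ) Z := fun γ => hZ γ γ.2
  have : NeZero (r * d) := ⟨Nat.mul_ne_zero (by omega) (by omega)⟩
  have := hI.semi hZ'
  obtain ⟨e, e0, e1, e2, e3, e4⟩ := exists_idemS hc hfr
  obtain ⟨b, rfl⟩ := exists_BR (incl_inj Γ) hZ' e0 e1 e2 e3 e4
  have hE := hI.trans hZ' b e0 e1
  have hp : ((L0.map g').prod).val = (L0.map g).prod := by
    rw [← Γ.coe_subtype, map_list_prod, List.map_map]
    rfl
  have hgen : gen (L0.map g') = ⊤ := by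
    rw [← hg, gen]
    congr 1
    ext x
    simp [hall]
  have hrk' := b.rank_eq hE rfl
  have hπ : ∀ a ∈ Bs, b.bs.π (g' a) ≠ 1 := fun a ha h4 => by
    obtain ⟨x, hx, h3⟩ := (hMa a ha).2
    refine h3 ?_
    obtain ⟨c, rfl⟩ := e4 x hx
    rw [Finset.mul_sum, Finset.sum_mul]
    refine Finset.sum_congr rfl fun i _ => ?_
    have h5 := b.act (g' a) i
    rw [show b.π (g' a) = 1 from h4] at h5
    rw [Matrix.mul_smul, Matrix.smul_mul]
    exact congrArg _ h5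
  have hsw : ∀ a ∈ Bs, b.bs.IsSw (g' a) := fun a ha => by
    obtain ⟨i, hi⟩ := not_forall.1 fun e => hπ a ha (Equiv.ext e)
    exact ⟨i, _, b.swap hr hrk' (x := g' a) (hMa a ha).1 (fun e => hi e.symm) rfl⟩
  have hsp : ∀ x ∈ L0.map g', b.bs.Sp (max s 2) x := fun x hx => by
    obtain ⟨a, -, rfl⟩ := List.mem_map.1 hx
    by_cases ha : a ∈ Bs
    · exact (hsw a ha).sp.mono (le_max_right _ _)
    · rcases hP a ha with h | h
      · rw [show g' a = 1 from Subtype.ext h]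
        exact ⟨∅, by simp, fun _ _ => one_mem _⟩
      · exact (sp_of_she b hr hrk' e1 (x := g' a) h).mono (le_max_left _ _)
  have hcs : Bs.card ≤ b.bs.cs (L0.map g') := by
    rw [BS.cs, List.countP_map, List.countP_eq_length_filter,
      ← List.toFinset_card_of_nodup (h0.filter _)]
    exact Finset.card_le_card fun a ha =>
      List.mem_toFinset.2 (List.mem_filter.2 ⟨hall a, decide_eq_true (hsw a ha)⟩)
  obtain ⟨T, R, k1, k2, k3, k4⟩ := norm (hpr.elim (fun h => prim_of_dvd hgen hE hsp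
    fun e a1 a2 a3 => max_lt (h e a1 a2 a3) (by omega)) fun h => h.prim b e0 e1) hgen (by omega)
  refine ⟨b, L0.map g', hrk', hgen, ⟨T, R, k1, ⟨k2, k4, fun x hx => ⟨k1.all
    (fun γ x hx => hx.conj γ) hsp x (List.mem_append_right _ hx), k3 x hx⟩,
    fun _ _ l hl => absurd (Finset.mem_univ l) hl,
    k1.prod.trans (Subtype.ext (hp.trans (hinf L0 h1 hall)))⟩, ?_⟩, ?_, fun x hx => ?_⟩
  · rw [← cs_nf k2 k3, k1.cs]
    omega
  · obtain ⟨a, k5, k6⟩ := hM
    rw [← hfst] at k1 ⊢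
    exact pairQ_norm hd k1 k2 k3 k4 ⟨_, List.mem_map_of_mem (hall a), hsw a k6, mo_mkd.2 k5⟩ hf
  · obtain ⟨a, -, rfl⟩ := List.mem_map.1 hx
    exact hq a

theorem group_finS (r s : ℕ) (hr : 1 ≤ r) : ∃ k : ℕ, ∀ (d n : ℕ) (Mov Bs : Finset (Fin n))
    (g : Fin n → GLr (r * d)) (ρ : Fin n → ℝ), 4 ≤ d → s + 2 ≤ d → Function.Injective ρ →
    (∀ L, LowerL ρ L → (∀ a, a ∈ L) →
      PairH Mo (fun x => IsOfFinOrder x.1) (L.map (mkd Mov g))) →
    (∀ a, IsOfFinOrder (g a).val) →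
    (∀ L, LowerL ρ L → (∀ a, a ∈ L) → (L.map g).prod = 1) →
    ∀ Z : Subalgebra ℂ (Mt (r * d)),
      SimpZ (incl (Subgroup.closure (Set.range g))) Z →
      (∀ γ ∈ Subgroup.closure (Set.range g), ∀ x ∈ Z, γ.val * x * (γ⁻¹).val ∈ Z) → CommA Z →
      Module.finrank ℂ Z = d → ((∀ e, e ∣ d → 1 < e → e < d → s < 2 * e) ∨
        PrimZ (incl (Subgroup.closure (Set.range g))) Z) →
      2 * d + k ≤ Bs.card → (∃ a ∈ Mov, a ∈ Bs) →
      (∀ a ∈ Bs, ((g a).val - 1).rank ≤ r ∧ ∃ x ∈ Z, (g a).val * x ≠ x * (g a).val) →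
      (∀ a, a ∉ Bs → g a = 1 ∨ She r (d - s) (g a).val Z) →
      Finite (Subgroup.closure (Set.range g)) := by
  obtain ⟨k, hk⟩ := finite_bigS (max s 2) r (le_max_right _ _) hr
  refine ⟨k + 1, fun d n Mov Bs g ρ hd hd' hρ ho hq hinf Z hI hZ hc hfr hpr hB hM hMa hP => ?_⟩
  obtain ⟨b, l, h1, h2, ⟨T, R, h3, h4, h5⟩, h6, h7⟩ := group_pre hr (by omega) hρ
    (Q := IsOfFinOrder) ho hinf hI hZ hc hfr hM hMa hP
    (fun a => Units.isOfFinOrder_val.1 (hq a)) hB hpr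
  have hs : ∀ x : Subgroup.closure (Set.range g), IsOfFinOrder x.val → IsOfFinOrder x := fun x =>
    (Subgroup.subtype_injective _).isOfFinOrder_iff.1
  exact hk d _ _ _ b l (by omega) h1 ⟨h2, ⟨T, R, h3, h4, by omega⟩,
    fun x y B k1 k2 => hs _ (h6 x y B k1 k2), fun x hx => hs x (h7 x hx)⟩

theorem group_vuS (r s : ℕ) (hr : 1 ≤ r) : ∃ k : ℕ, ∀ (d n : ℕ) (Mov Bs : Finset (Fin n))
    (g : Fin n → GLr (r * d)) (ρ : Fin n → ℝ), 4 ≤ d → s + 2 ≤ d → Function.Injective ρ →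
    (∀ L, LowerL ρ L → (∀ a, a ∈ L) → PairH Mo (fun x => QU x.1.val) (L.map (mkd Mov g))) →
    (∀ a, QU (g a).val) →
    (∀ L, LowerL ρ L → (∀ a, a ∈ L) → (L.map g).prod = 1) →
    ∀ Z : Subalgebra ℂ (Mt (r * d)),
      SimpZ (incl (Subgroup.closure (Set.range g))) Z →
      (∀ γ ∈ Subgroup.closure (Set.range g), ∀ x ∈ Z, γ.val * x * (γ⁻¹).val ∈ Z) → CommA Z →
      Module.finrank ℂ Z = d → ((∀ e, e ∣ d → 1 < e → e < d → s < 2 * e) ∨
        PrimZ (incl (Subgroup.closure (Set.range g))) Z) →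
      2 * d + k ≤ Bs.card → (∃ a ∈ Mov, a ∈ Bs) →
      (∀ a ∈ Bs, ((g a).val - 1).rank ≤ r ∧ ∃ x ∈ Z, (g a).val * x ≠ x * (g a).val) →
      (∀ a, a ∉ Bs → g a = 1 ∨ She r (d - s) (g a).val Z) →
      VU (incl (Subgroup.closure (Set.range g))) := by
  obtain ⟨k, hk⟩ := vu_bigS (max s 2) r (le_max_right _ _) hr
  refine ⟨k + 1, fun d n Mov Bs g ρ hd hd' hρ ho hq hinf Z hI hZ hc hfr hpr hB hM hMa hP => ?_⟩
  obtain ⟨b, l, h1, h2, ⟨T, R, h3, h4, h5⟩, h6, h7⟩ := group_pre hr (by omega) hρ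
    (Q := fun x => QU x.val) ho hinf hI hZ hc hfr hM hMa hP hq hB hpr
  exact hk d _ _ _ b l (by omega) h1 ⟨h2, ⟨T, R, h3, h4, by omega⟩, h6, h7⟩

end Pool.Agent.GR.FS
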