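import Pool.Agent.Lib.MP_aa40d3_nt.NP.Fs
import Pool.Agent.Lib.MP_aa40d3_nt.GD.WWdet
import Pool.Agent.Lib.MP_aa40d3_nt.CV.KatB
import Pool.Agent.Lib.MP_aa40d3_nt.CV.Main
import Pool.Agent.Lib.MP_aa40d3_nt.FK.ConvP

/-! Formal solutions of the dual system on unramified sheets. -/

open Polynomial Matrix
open scoped Polynomial.Bivariate

namespace Pool.Agent.GR.FS

open CV FK

variable {N r d m : ℕ} {S : CV.Sys ℂ r} {q : ℂ[X][Y]} {δ : ℂ[X]} {x : CV.LL}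

/-- A frame whose dual rows on `m` sheets are horizontal eigenvectors of `Mu`. -/
def TQ (r m : ℕ) (D : ℂ[X]) (B Mu : PM N) (x : CV.LL) : Prop :=
  ∃ (U Cm : LM N) (y : Fin m → CV.LL) (e : Fin (r * m) → Fin N), Function.Injective e ∧
    MSol D B x U Cm ∧ ∀ i, (∀ j, Cm (e i) j = 0) ∧
      U⁻¹ (e i) ᵥ* Mu.map (ev x) = y (sh i) • U⁻¹ (e i)

theorem exists_ext {α : Type} [Infinite α] {k : ℕ} {y : Fin m → α} (hy : Function.Injective y) :
    ∃ z : Fin (m + k) → α, Function.Injective z ∧ ∀ j, z (Fin.castAdd k j) = y j := by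
  have h := (Set.finite_range y).infinite_compl
  refine ⟨Fin.append y fun j => (h.natEmbedding _ j).1, Fin.append_injective_iff.2
    ⟨hy, fun a b e => Fin.ext ((h.natEmbedding _).injective (Subtype.ext e)),
      fun a b e => (h.natEmbedding _ b).2 ⟨a, e⟩⟩, fun j => Fin.append_left _ _ j⟩

theorem blk_row {K γ : Type} [Field K] {G : Fin d → Matrix (Fin r) (Fin r) K} {j : Fin d}
    (hG : (G j).det ≠ 0) (M : Matrix (Fin (r * d)) γ K) (a : Fin r) :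
    ((G j)⁻¹ * (blk G j * M)) a = M (ix a j) := by
  rw [← Matrix.mul_assoc, mul_blk, nonsing_inv_mul _ hG.isUnit]
  funext c
  rw [Matrix.mul_apply, Finset.sum_eq_single (ix a j)]
  · rw [blk, Matrix.of_apply, if_pos (sh_ix _ _), co_ix, Matrix.one_apply_eq, one_mul]
  · intro i _ hi
    refine mul_eq_zero_of_left ?_ _
    by_cases h : sh i = j
    · have : a ≠ co i := fun e => hi (by rw [e, ← h, ix_co_sh])
      simp [blk, h, this]
    · simp [blk, h]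
  · simp

theorem part_cancel {K α β : Type} [Field K] {c : K} (hc : c ≠ 0) {u v : Matrix α β K}
    (h : c • (u + v) = c • u) : v = 0 := add_eq_left.1 (smul_right_injective _ hc h)

theorem part_row {K : Type} [Field K] {c : K} {O : Matrix (Fin r) (Fin N) K}
    {P : Matrix (Fin N) (Fin N) K} (h : O * P = c • O) (g : Matrix (Fin r) (Fin r) K) (a : Fin r) :
    (g * O) a ᵥ* P = c • (g * O) a := by
  change (g * O * P) a = _
  rw [Matrix.mul_assoc, h, Matrix.mul_smul]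
  rfl

theorem push_part (h : Prep S d q δ) (hD : ev x (δ * S.D) ≠ 0) (hm : m ≤ d) (hS : S.Unr x m) :
    TQ r m (δ * S.D) (pB S d q δ) (pM S d) x := by
  obtain ⟨k, rfl⟩ := Nat.exists_eq_add_of_le hm
  have : CharZero CV.LL := charZero_of_injective_algebraMap (algebraMap ℂ CV.LL).injective
  obtain ⟨y, hy, hl⟩ := hS
  choose G hG using fun j => pushb_loc (hl j)
  obtain ⟨z, hz, hzy⟩ := exists_ext (k := k) hy
  let G' : Fin (m + k) → Matrix (Fin r) (Fin r) CV.LL := Fin.append G fun _ => 1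
  have hG' : ∀ j, G' (Fin.castAdd k j) = G j := fun j => Fin.append_left _ _ j
  have hdet : ∀ j, (G' j).det ≠ 0 := fun j => Fin.addCases
    (fun j => by rw [hG']; exact (hG j).2.1) (fun j => by simp [G']) j
  obtain ⟨U, hU⟩ := om_surj (r := r) hz (fun j => blk G' j)
  have hU0 := det_ne_of_blk hdet hU
  obtain ⟨Cm, hC⟩ : ∃ Cm, MSol (δ * S.D) (pB S (m + k) q δ) x U Cm :=
    ⟨U⁻¹ * ((ev x (δ * S.D))⁻¹ • (sL * dL x) • ((pB S (m + k) q δ).map (ev x) * U) -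
      sL • U.map dL), hU0, by
      rw [mul_nonsing_inv_cancel_left _ _ hU0.isUnit, add_sub_cancel, smul_inv_smul₀ hD]⟩
  refine ⟨U, Cm, y, fun i => ix (co i) (Fin.castAdd k (sh i)), fun a b e => ?_, hC, fun i => ?_⟩
  · have e1 := congrArg co e
    have e2 := congrArg sh e
    simp only [co_ix, sh_ix, Fin.castAdd_inj] at e1 e2
    rw [← ix_co_sh a, e1, e2, ix_co_sh]
  beta_reduce
  generalize co i = a
  generalize sh i = j
  have hj := hG j
  rw [← hG', ← hzy] at hj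
  rw [← hzy]
  generalize Fin.castAdd k j = c at hj
  have h0 : ev x δ ≠ 0 := fun e => hD (by rw [map_mul, e, zero_mul])
  have h1 : ev x S.D ≠ 0 := fun e => hD (by rw [map_mul, e, mul_zero])
  refine ⟨fun l => ?_, ?_⟩
  · have h2 := om_msol h h0 hj.1 hC
    have h3 := pushl_blk G' (fun _ => 0) c _ _ _ hj.2.2
    rw [hU, ← h3, pushb_bd, Matrix.mul_zero, add_zero] at h2
    rw [← blk_row (hdet c) Cm a, part_cancel h1 h2, Matrix.mul_zero]
    rfl
  · have h2 := om_pM h (aevalAeval x (z c) : ℂ[X][Y] →ₐ[ℂ] CV.LL).toRingHom hj.1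
    rw [show (fun p : ℂ[X] => (aevalAeval x (z c) : ℂ[X][Y] →ₐ[ℂ] CV.LL).toRingHom (C p)) = ev x
      from funext fun p => pushl_C x (z c) p, show (aevalAeval x (z c) :
        ℂ[X][Y] →ₐ[ℂ] CV.LL).toRingHom Y = z c from pushl_Y x (z c)] at h2
    have h3 : U⁻¹ (ix a c) = ((G' c)⁻¹ * Om r (m + k) (z c)) a := by
      rw [← blk_row (hdet c) U⁻¹ a, ← hU, mul_nonsing_inv_cancel_right _ _ hU0.isUnit]
    rw [h3]
    exact part_row h2 _ a

theorem row_rep {R K : Type} [CommRing R] [Field K] {φ : R →+* K}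
    {G Mu Φ : Matrix (Fin N) (Fin N) R} (hG : φ G.det ≠ 0) {p : Fin d → R}
    (h : G.det • (Φ * G) = G * ∑ k : Fin d, p k • Mu ^ (k : ℕ)) {v : Fin N → K} {τ : K}
    (hv : v ᵥ* Mu.map φ = τ • v) : (v ᵥ* (G.map φ)⁻¹) ᵥ* Φ.map φ =
      ((φ G.det)⁻¹ * ∑ k : Fin d, φ (p k) * τ ^ (k : ℕ)) • (v ᵥ* (G.map φ)⁻¹) := by
  have hu : IsUnit (G.map φ).det := by
    rw [← RingHom.mapMatrix_apply, ← RingHom.map_det]
    exact hG.isUnit
  have h1 : ∀ k : ℕ, v ᵥ* Mu.map φ ^ k = τ ^ k • v := by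
    intro k
    induction k with
    | zero => simp
    | succ k ih => rw [pow_succ, ← vecMul_vecMul, ih, smul_vecMul, hv, smul_smul, pow_succ]
  have h2 := congrArg (fun A : Matrix (Fin N) (Fin N) R =>
    ((v ᵥ* (G.map φ)⁻¹) ᵥ* A.map φ) ᵥ* (G.map φ)⁻¹) h
  simp only [wdr_map_smul, Matrix.map_mul, wdr_map_sum, vecMul_smul, smul_vecMul] at h2
  rw [vecMul_vecMul _ (Φ.map φ * _), mul_nonsing_inv_cancel_right _ _ hu,
    vecMul_vecMul v _ (G.map φ * _), nonsing_inv_mul_cancel_left _ _ hu, vecMul_sum] at h2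
  simp only [vecMul_smul, h1, smul_smul, ← Finset.sum_smul, smul_vecMul] at h2
  rw [mul_smul, ← h2, inv_smul_smul₀ hG]

theorem ga_inv {K : Type} [Field K] {c : K} (hc : c ≠ 0) {g U : Matrix (Fin N) (Fin N) K}
    (hg : IsUnit g.det) (hU : IsUnit U.det) : (c⁻¹ • (g * U))⁻¹ = c • (U⁻¹ * g⁻¹) := by
  refine inv_eq_left_inv ?_
  rw [Matrix.smul_mul, Matrix.mul_smul, smul_inv_smul₀ hc, Matrix.mul_assoc,
    nonsing_inv_mul_cancel_left _ _ hg, nonsing_inv_mul _ hU]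

theorem TQ.fe {D D' ρ : ℂ[X]} {B B' G Mu : PM N} (h : TQ r m D B Mu x) (g : Gau D B D' B' ρ G)
    (hD : ev x D ≠ 0) (hρ : ev x ρ ≠ 0) (hG : ev x G.det ≠ 0) {W : Subalgebra ℂ[X] (PM N)}
    (hW : ∀ Φ ∈ W, ∃ p : Fin d → ℂ[X], G.det • (Φ * G) = G * ∑ k : Fin d, p k • Mu ^ (k : ℕ)) :
    FE r m D' B' x W := by
  obtain ⟨U, Cm, y, e, he, h1, h2⟩ := h
  have h3 := g.msol hD hρ hG h1
  have hu : IsUnit (G.map (ev x)).det := by
    rw [katb_det]
    exact hG.isUnit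
  have h4 : (ga ρ G x U)⁻¹ = ev x ρ • (U⁻¹ * (G.map (ev x))⁻¹) := ga_inv hρ hu h1.1.isUnit
  refine ⟨fun i => (ga ρ G x U)⁻¹ (e i), NP.fs_li (U := ga ρ G x U) (e := e) (c := fun _ => 1)
    (fun _ => one_ne_zero) fun i j => by simp only [NP.fs_mul h3.1, he.eq_iff],
    fun Φ hΦ => ?_, fun i => NP.fs_row h3 (h2 i).1⟩
  obtain ⟨p, hp⟩ := hW Φ hΦ
  have h5 : ∀ i, (ga ρ G x U)⁻¹ (e i) = ev x ρ • (U⁻¹ (e i) ᵥ* (G.map (ev x))⁻¹) := fun i => by
    rw [h4]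
    rfl
  refine ⟨fun k => (ev x G.det)⁻¹ * ∑ l : Fin d, ev x (p l) * y k ^ (l : ℕ), fun i => ?_⟩
  funext a
  simp only [h5, smul_vecMul, row_rep hG hp (h2 _).2, Pi.smul_apply, smul_eq_mul]
  ring

theorem TB.top {D : ℂ[X]} {B : PM N} {t : ℂ} {U : LM N} (h : TB r D B t U) : TB N D B t U := by
  obtain ⟨h1, π, J, -, h2, h3⟩ := h
  exact ⟨h1, π, J, by simpa using J.card_le_univ, h2, h3⟩

/-- Frames; nothing is assumed at the points outside `M`. -/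
theorem exists_framesS {n : ℕ} (hr : 1 ≤ r) (hd : 2 ≤ d) (h : Prep S d q δ)
    (hK : ∀ z, ∃ U Cm : LM (r * d), (∀ i j, Ov 0 (Cm i j)) ∧
      MSol (δ * S.D) (pB S d q δ) (xt z 1) U Cm)
    {t : Fin n → ℂ} (ht : Function.Injective t) {M : Finset (Fin n)}
    (hB : ∀ i ∈ M, S.Bra d (t i)) (hU : ∀ c, c ∉ Set.range t → S.Unr (xt c 1) d) :
    ∃ U : ℂ → LM (r * d), Fr (r * d) (δ * S.D) (pB S d q δ) t M U ∧ ∀ i ∈ M,
      TB r (δ * S.D) (pB S d q δ) (t i) (U (t i)) ∧ ∃ (j : Fin (r * d)) (τ : CV.LL), sg τ ≠ τ ∧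
        ((pM S d).map (ev (xt (t i) 2)) *ᵥ fun a => U (t i) a j) = τ • fun a => U (t i) a j := by
  have key : ∀ z : ℂ, ∃ U : LM (r * d), (z ∉ Set.range t → TG (δ * S.D) (pB S d q δ) z U) ∧
      (∀ i, t i = z → i ∉ M → TP (r * d) (δ * S.D) (pB S d q δ) z U) ∧ ∀ i, t i = z → i ∈ M →
        TB r (δ * S.D) (pB S d q δ) z U ∧ ∃ (j : Fin (r * d)) (τ : CV.LL), sg τ ≠ τ ∧
          ((pM S d).map (ev (xt z 2)) *ᵥ fun a => U a j) = τ • fun a => U a j := by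
    intro z
    by_cases hz : z ∈ Set.range t
    · obtain ⟨i, rfl⟩ := hz
      by_cases hi : i ∈ M
      · obtain ⟨U, h1⟩ := push_bra hr hd h (hB i hi)
        exact ⟨U, fun h2 => absurd ⟨i, rfl⟩ h2, fun j hj h2 => absurd (ht hj ▸ hi) h2,
          fun _ _ _ => h1⟩
      · obtain ⟨U, Cm, h1, h2⟩ := hK (t i)
        exact ⟨U, fun h2 => absurd ⟨i, rfl⟩ h2, fun _ _ _ => ⟨Cm, Finset.univ, by simp, h1,
          fun _ h => absurd (Finset.mem_univ _) h, h2⟩, fun j hj h2 => absurd (ht hj ▸ h2) hi⟩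
    · obtain ⟨U, y, -, h1, -⟩ := push_unr h (hU z hz)
      exact ⟨U, fun _ => h1, fun i hi => absurd ⟨i, hi⟩ hz, fun i hi => absurd ⟨i, hi⟩ hz⟩
  choose U h1 h2 h3 using key
  exact ⟨U, ⟨h1, fun i hi => h2 _ i rfl hi, fun i hi => TB.top (h3 _ i rfl hi).1⟩,
    fun i hi => h3 _ i rfl hi⟩

end Pool.Agent.GR.FS
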