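import Pool.Agent.Lib.MP_aa40d3_nt.NP.Main8
import Pool.Agent.Lib.MP_aa40d3_nt.NP.SpC
import Pool.Agent.Lib.MP_aa40d3_nt.FS.NCore
import Pool.Agent.Lib.MP_aa40d3_nt.FB.Cyc
import Pool.Agent.Lib.MP_aa40d3_nt.FS.Frm

/-! Nilpotent systems on an irreducible curve with special fibres. -/

open Polynomial Matrix
open scoped Polynomial.Bivariate

namespace Pool.Agent.GR.FS

open Pool.Agent.GR.CV FB NP FK

theorem final14aN (r s : ℕ) (hr : 1 ≤ r) : ∃ k : ℕ, ∀ (d n : ℕ) (R : Type) [CommRing R]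
    [Algebra.FiniteType ℤ R] (ι : R →+* ℂ) (S : CV.Sys R r) (t : Fin n → ℂ) (M : Finset (Fin n))
    (i₀ : Fin n), S.P.Monic → S.P.natDegree = d → 3 ≤ d → s + 1 ≤ d →
    ((∀ e, e ∣ d → 1 < e → e < d → s < 2 * e) ∨ PrimP (S.map ι).P) → (S.map ι).D ≠ 0 →
    Function.Injective t → Gen {i₀} t → i₀ ∈ M → 2 * d + k ≤ M.card →
    (∀ i ∈ M, (S.map ι).Bra d (t i)) →
    (∀ i, i ∉ M → (S.map ι).Unr (xt (t i) 1) (d - s)) →
    (∀ c, c ∉ Set.range t → (S.map ι).Unr (xt c 1) d) → (S.map ι).Unr sL⁻¹ d →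
    Irreducible (S.map ι).P →
    (∀ m : Ideal R, m.IsMaximal → (S.map (Ideal.Quotient.mk m)).Tri) → (S.map ι).AlgTri := by
  classical
  obtain ⟨k, hk⟩ := core11N r s hr
  refine ⟨k, fun d n R _ _ ι S t M i₀ hP hdeg hd hd' hE hD ht hgen hi₀ hM hB hPu hU hI hIrr hF =>
    ?_⟩
  have : NeZero (r * d) := ⟨Nat.mul_ne_zero (by omega) (by omega)⟩
  have : NeZero d := ⟨by omega⟩
  have hinf : ∀ {p : ℂ[X]}, p ≠ 0 → ev sL⁻¹ p ≠ 0 := fun hp => (map_ne_zero_iff _ ev_inv_inj).2 hp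
  obtain ⟨q, δ, hp, hδ⟩ : ∃ q δ, Prep S d q δ ∧ δ.map ι ≠ 0 := by
    obtain ⟨y, hy, h⟩ := hI
    exact exists_prep ι hP hdeg (by omega) hy fun j => (h j).1
  have hp' := hp.map ι
  have hD1 := mul_ne_zero hδ hD
  obtain ⟨V, y, hy, hy0, hV, hMu⟩ := push_unr' hp' hI
  have hK := katzN ι (D := δ * S.D) (B := pB S d q δ) hδ (by rwa [Polynomial.map_mul])
    fun R' _ _ j m _ => ht_red hp hF j m
  rw [Polynomial.map_mul, pB_map hP] at hK
  obtain ⟨U, hFr, hτ⟩ := exists_framesS hr (by omega) hp' hK ht hB hU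
  obtain ⟨ρ, G₁, A₁, hρ, hG₁, g₁, hNF, -, hhalf⟩ := exists_fuchs ht hD1 hFr hV
  obtain ⟨k', z, A, G₂, hz, hG₂, g₂, hcyc, hold, -⟩ :=
    exists_cyc' ht (g₁.msol (hinf hD1) (hinf hρ) (hinf hG₁) hV) hNF
  have g := g₁.comp g₂ (dl_ne t)
  rw [mul_one] at g
  have hG : (G₂ * G₁).det ≠ 0 := by
    rw [det_mul]
    exact mul_ne_zero hG₂ hG₁
  have hst := WW_stab (sh := sh (r := r) (d := d)) (g.msol (hinf hD1) (hinf hρ) (hinf hG) hV)
    (by rw [sdL_inv]; exact neg_ne_zero.2 (inv_ne_zero sL_ne))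
  have hpow := pM_pow hp' (⟨0, hr⟩ : Fin r)
  have hmem := WW_mem (ρ := ρ) (G := G₂ * G₁) hMu 1
  rw [pow_one] at hmem
  refine push_algT hp' (by omega) (gau_algMT g hD1 hρ hG (algMT_of_algSolT (hk d _
    (({i₀} : Finset (Fin n)).map (Fin.castAddEmb k')) (M.map (Fin.castAddEmb k')) _ A hd hd'
    (by rwa [Finset.card_map]) ⟨_, Finset.mem_map_of_mem _ (Finset.mem_singleton_self i₀),
      Finset.mem_map_of_mem _ hi₀⟩ hz.1 (hz.gen hgen) hcyc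
    ⟨_, WW_det hp'.1 hp'.2.1 hIrr hy0 ev_inv_inj hρ hV.1
      hG hMu hy hpow, hst, WW_comm ev_inv_inj (g.msol (hinf hD1) (hinf hρ) (hinf hG) hV).1,
      WW_rank ev_inv_inj hρ hV.1 hG hMu hy hpow, fun i' hi' => ?_, fun i' hi' => ?_,
      hE.imp_right fun h => primW_WW h hy0 ev_inv_inj hρ hV.1 hG hMu hy hpow⟩
    (FS.asi (fs_of_zero (g.msol (hinf hD1) (hinf hρ) (hinf hG) hV) 0))
    (pcn_curve ι hp hδ hD hρ hG g hF))))
  · obtain ⟨i, hi, rfl⟩ := Finset.mem_map.1 hi'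
    obtain ⟨h0, j, τ, h1, h2⟩ := hτ i hi
    obtain ⟨u, hu, hu'⟩ := hold i
    have e : Fin.append t z (Fin.castAddEmb k' i) = t i := Fin.append_left t z i
    have hx : ∀ {p : ℂ[X]}, p ≠ 0 → ev (xt (t i) 2) p ≠ 0 := fun hp => ev_xt_ne (by norm_num) hp
    obtain ⟨h3, h4⟩ := (g.msol (hx hD1) (hx hρ) (hx hG) (hFr.2.2 i hi).1).col j
    refine ⟨?_, NP.FS.asp hz.1 (by
      rw [e]
      exact NP.fs_of_tb (g.tb hD1 hρ hG h0))⟩
    refine ramAt hz.1 (half_conj hu hu' (hhalf i hi)) hst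
      (fun Φ => WW_sat ev_inv_inj (X_sub_C_ne_zero _)) h3 (by rw [e]; exact h4) (fun Φ hΦ => ?_)
      ⟨_, hmem, ev (xt (t i) 2) (G₂ * G₁).det * τ, ?_, fun h5 => h1 ?_⟩
    · rw [e, ga_col]
      exact eigen_of_rep (hx hG) (WW_rep ev_inv_inj hρ hV.1 hMu hy hpow hΦ) h2 _
    · rw [e, ga_col]
      exact eigen_Mu h2 _
    · rw [sg_mul, sg_ev, sg_xt] at h5
      exact mul_left_cancel₀ (hx hG) h5
  · revert hi'
    refine Fin.addCases (fun i hi' => Or.inr (FE.aep hz.1 ?_))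
      (fun j _ => Or.inl (NP.FS.asp hz.1 ?_)) i'
    · rw [Fin.append_left]
      exact (push_part hp' (ev_xt_ne le_rfl hD1) (Nat.sub_le d s)
        (hPu i fun h => hi' (Finset.mem_map_of_mem _ h))).fe g (ev_xt_ne le_rfl hD1)
        (ev_xt_ne le_rfl hρ) (ev_xt_ne le_rfl hG)
        fun Φ hΦ => ⟨_, WW_rep ev_inv_inj hρ hV.1 hMu hy hpow hΦ⟩
    · refine NP.fs_of_zero (g.tg hD1 hρ hG (hFr.1 _ ?_)) 0
      rintro ⟨i, hi⟩
      have h1 := hz.1 ((Fin.append_left t z i).trans hi)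
      have h2 := congrArg Fin.val h1
      simp only [Fin.val_castAdd, Fin.val_natAdd] at h2
      omega

end Pool.Agent.GR.FS
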