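import Pool.Agent.Lib.MP_aa40d3_nt.FS.Main
import Pool.Agent.Lib.MP_aa40d3_nt.FS.NMain
import Pool.Agent.Lib.MP_aa40d3_nt.FK.Final

/-! Systems on a curve with a covering that has special fibres and one free branch point. -/

open Polynomial
open scoped Polynomial.Bivariate IntermediateField

namespace Pool.Agent.GR.FS

open Pool.Agent.GR.CV Pool.Agent.GR.GE FB NP FK
open Pool.Agent.Lib.MP_a01f70_lc.QQ (Place)

theorem fin_special {F : Type} [Field F] [Algebra ℂ F] [IsFF F] {Sg : Finset (Place ℂ F)} {f : F}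
    {d : ℕ} (h0 : 0 < d) (hdeg : Module.finrank ℂ⟮f⟯ F = d) (h1 : Fib Sg f 0 (-1) d) :
    {c | ¬ Fib Sg f c 1 d}.Finite := by
  classical
  obtain ⟨R, hR⟩ := exists_can (F := F)
  have hf : Transcendental ℂ f := tr_of_rank (by omega)
  obtain ⟨q, hq, h3⟩ := Fib.pls0.1 h1
  have h3' := fun j => (h3 j).2
  have h4 := poles_all R hf hdeg hq h3'
  obtain ⟨-, T, hT, -⟩ := count hR Sg (by omega) hq h3 h4
  refine T.finite_toSet.subset fun c hc => ?_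
  by_contra hn
  obtain ⟨Z, hZ, hz⟩ := gn_fibre R (by omega) hq h3' h4 c
  have k : ∀ p ∈ Z, ram p f = 1 ∧ p ∉ Sg := fun p hp => by
    have := mt (hT p ((hZ p).1 hp).1) (by rw [((hZ p).1 hp).2]; exact hn)
    push Not at this
    exact this
  rw [Finset.sum_congr rfl fun p hp => (k p hp).1, Finset.sum_const, nsmul_one] at hz
  exact hc (gn_pls (s := Z) (by exact_mod_cast hz.ge) fun p hp =>
    ⟨(k p hp).2, ((hZ p).1 hp).2 ▸ (k p hp).1⟩)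

/-- The special values in a list. -/
theorem exists_listS {F : Type} [Field F] [Algebra ℂ F] [IsFF F] {Sg : Finset (Place ℂ F)} {f : F}
    {d : ℕ} (h0 : 0 < d) (hdeg : Module.finrank ℂ⟮f⟯ F = d) (h1 : Fib Sg f 0 (-1) d)
    {B : Finset ℂ} (hB : ∀ c ∈ B, Fib Sg f c 2 1) {c₀ : ℂ} (h3 : c₀ ∈ B)
    (h4 : Transcendental (IntermediateField.adjoin ℚ {c | c ≠ c₀ ∧ ¬ Fib Sg f c 1 d}) c₀) :
    ∃ (n : ℕ) (t : Fin n → ℂ) (M : Finset (Fin n)) (i₀ : Fin n), Function.Injective t ∧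
      Gen {i₀} t ∧ i₀ ∈ M ∧ B.card ≤ M.card ∧ (∀ i, i ∈ M ↔ t i ∈ B) ∧
      ∀ c, c ∉ Set.range t → Fib Sg f c 1 d := by
  classical
  have hT := fin_special h0 hdeg h1
  set T := hT.toFinset
  let t : Fin T.card → ℂ := fun i => (T.equivFin.symm i).1
  have ht : ∀ c, ¬ Fib Sg f c 1 d → c ∈ Set.range t := fun c hc =>
    ⟨T.equivFin ⟨c, hT.mem_toFinset.2 hc⟩, congrArg Subtype.val (T.equivFin.symm_apply_apply _)⟩
  have hi : Function.Injective t := Subtype.val_injective.comp T.equivFin.symm.injective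
  obtain ⟨i₀, rfl⟩ := ht c₀ (not_fib h0 hdeg h1 (hB _ h3))
  refine ⟨_, t, Finset.univ.filter fun i => t i ∈ B, i₀, hi, gen_one (fun j hj => ?_) h4,
    Finset.mem_filter.2 ⟨Finset.mem_univ _, h3⟩, ?_, fun i => by simp,
    fun c hc => not_not.1 fun h => hc (ht c h)⟩
  · exact IntermediateField.subset_adjoin ℚ _
      ⟨hi.ne hj, hT.mem_toFinset.1 (T.equivFin.symm j).2⟩
  · have k : B ⊆ (Finset.univ.filter fun i => t i ∈ B).image t := fun c hc => by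
      obtain ⟨i, rfl⟩ := ht c (not_fib h0 hdeg h1 (hB c hc))
      exact Finset.mem_image_of_mem _ (Finset.mem_filter.2 ⟨Finset.mem_univ _, hc⟩)
    exact (Finset.card_le_card k).trans Finset.card_image_le

theorem of_coatom {F : Type} [Field F] [Algebra ℂ F] {f : F} (h : IsCoatom ℂ⟮f⟯)
    (K : IntermediateField ℂ⟮f⟯ F) : K = ⊥ ∨ K = ⊤ :=
  (h.le_iff.1 (show ℂ⟮f⟯ ≤ K.restrictScalars ℂ from fun x hx => K.algebraMap_mem ⟨x, hx⟩)).symm.imp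
    (fun e => IntermediateField.restrictScalars_injective ℂ
      (e.trans (IntermediateField.restrictScalars_bot_eq_self _).symm))
    fun e => IntermediateField.restrictScalars_injective ℂ
      (e.trans IntermediateField.restrictScalars_top.symm)

theorem final14 (r : ℕ) (hr : 1 ≤ r) : ∃ k : ℕ, ∀ (s : ℕ) (R : Type) [CommRing R]
    [Algebra.FiniteType ℤ R] (ι ψ : R →+* ℂ) (S : CV.Sys R r) (F : Type) [Field F] [Algebra ℂ F]
    (x y f : F) (Sg : Finset (Place ℂ F)) (d : ℕ) (B : Finset ℂ) (c₀ : ℂ),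
    RingHom.ker ι ≤ RingHom.ker ψ → S.P.Monic →
    Irreducible (S.map ι).P → Irreducible (S.map ψ).P → (S.map ψ).D ≠ 0 →
    Transcendental ℂ x → ℂ⟮x, y⟯ = ⊤ → aevalAeval x y (S.map ι).P = 0 →
    Module.finrank ℂ⟮f⟯ F = d → 3 ≤ d → s + 1 ≤ d →
    (s ≤ 3 ∨ IsCoatom ℂ⟮f⟯) → Fib Sg f 0 (-1) d →
    (∀ c ∈ B, Fib Sg f c 2 1 ∧ Fib Sg f c 1 (d - 2)) → (∀ c ∉ B, Fib Sg f c 1 (d - s)) →
    2 * d + k ≤ B.card → c₀ ∈ B →
    Transcendental (IntermediateField.adjoin ℚ {c | c ≠ c₀ ∧ ¬ Fib Sg f c 1 d}) c₀ →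
    (∀ p ∉ Sg, ∀ φ, At φ p → (S.map ι).Loc (φ x) (φ y)) →
    (∀ m : Ideal R, m.IsMaximal → (S.map (Ideal.Quotient.mk m)).Fund) → (S.map ψ).Alg := by
  obtain ⟨k, hk⟩ := final14a r hr
  have : NeZero r := ⟨by omega⟩
  refine ⟨k, fun s R _ _ ι ψ S F _ _ x y f Sg d B c₀ h0 hP hI hI' hD hx hxy hy hdeg hd hs hE
    h1 h2 h2' hg h3 h4 hL hF => SP.alg_spec ι ψ h0 S hP hI ?_ hI' hD⟩
  have hMo : GE.Model x y (S.map ι).P := ⟨hx, hxy, hP.map _, hI, hy⟩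
  have : IsFF F := isFF_of_gen hx hxy hI.ne_zero hy
  obtain ⟨n, t, M, i₀, ht, k1, k2, k3, k7, k6⟩ :=
    exists_listS (by omega) hdeg h1 (fun c hc => (h2 c hc).1) h3 h4
  have k4 := fun i hi => h2 _ ((k7 i).1 hi)
  have k5 := fun i (hi : i ∉ M) => h2' _ fun h => hi ((k7 i).2 h)
  have hf : Transcendental ℂ f := tr_of_rank (by omega)
  obtain ⟨w, hw, hw'⟩ := exists_int hf
  obtain ⟨P', hM'⟩ := GE.exists_model hf hw hw'
  have hd' := hM'.deg.trans hdeg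
  obtain ⟨S', E, rfl, h⟩ := exists_chg (S.map ι) hMo (d_ne h0 hD) hM'
  obtain ⟨R', _, _, ι', S₀, q1, rfl, q2⟩ := transport ι S hP h hF
  have hL' : ∀ p, p ∉ Sg → ∀ φ, At φ p → (S₀.map ι').Loc (φ f) (φ w) :=
    fun p hp φ hφ => h.loc φ (hL p hp φ hφ)
  exact h.alg (hk s d n R' ι' S₀ t M i₀ q1 ((q1.natDegree_map _).symm.trans hd') hd hs
    (hE.imp (fun h e _ _ _ => by omega) fun h => primP_of_field hM' (of_coatom h))
    h.D' ht k1 k2 (hg.trans k3)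
    (fun i hi => ⟨unr_fin hM' hL' (k4 i hi).2, loc_bra hM' hL' (k4 i hi).1⟩)
    (fun i hi => unr_fin hM' hL' (k5 i hi))
    (fun c hc => unr_fin hM' hL' (k6 c hc)) (unr_inf hM' hL' (Fib.pls0.1 h1)) hM'.irr q2)

/-- One ordinary point in every fibre; the bound only depends on the rank. -/
theorem final15 (r : ℕ) (hr : 1 ≤ r) : ∃ k : ℕ, ∀ (R : Type) [CommRing R]
    [Algebra.FiniteType ℤ R] (ι ψ : R →+* ℂ) (S : CV.Sys R r) (F : Type) [Field F] [Algebra ℂ F]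
    (x y f : F) (Sg : Finset (Place ℂ F)) (d : ℕ) (B : Finset ℂ) (c₀ : ℂ),
    RingHom.ker ι ≤ RingHom.ker ψ → S.P.Monic →
    Irreducible (S.map ι).P → Irreducible (S.map ψ).P → (S.map ψ).D ≠ 0 →
    Transcendental ℂ x → ℂ⟮x, y⟯ = ⊤ → aevalAeval x y (S.map ι).P = 0 →
    Module.finrank ℂ⟮f⟯ F = d → 3 ≤ d → (IsCoatom ℂ⟮f⟯ ∨ ∀ c, Fib Sg f c 1 (d - 3)) →
    Fib Sg f 0 (-1) d → (∀ c, Fib Sg f c 1 1) →
    (∀ c ∈ B, Fib Sg f c 2 1 ∧ Fib Sg f c 1 (d - 2)) → 2 * d + k ≤ B.card → c₀ ∈ B →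
    Transcendental (IntermediateField.adjoin ℚ {c | c ≠ c₀ ∧ ¬ Fib Sg f c 1 d}) c₀ →
    (∀ p ∉ Sg, ∀ φ, At φ p → (S.map ι).Loc (φ x) (φ y)) →
    (∀ m : Ideal R, m.IsMaximal → (S.map (Ideal.Quotient.mk m)).Fund) → (S.map ψ).Alg := by
  obtain ⟨k, hk⟩ := final14 r hr
  refine ⟨k, fun R _ _ ι ψ S F _ _ x y f Sg d B c₀ h0 hP hI hI' hD hx hxy hy hdeg hd hE h1 h2 h3 => ?_⟩
  by_cases h : 4 ≤ d ∧ ∀ c, Fib Sg f c 1 (d - 3)
  · exact hk 3 R ι ψ S F x y f Sg d B c₀ h0 hP hI hI' hD hx hxy hy hdeg hd h.1 (Or.inl le_rfl) h1 h3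
      fun c _ => h.2 c
  · exact hk (d - 1) R ι ψ S F x y f Sg d B c₀ h0 hP hI hI' hD hx hxy hy hdeg hd (by omega)
      (hE.symm.imp_left fun e => by_contra fun k => h ⟨by omega, e⟩) h1 h3
      fun c _ => by rw [show d - (d - 1) = 1 by omega]; exact h2 c

theorem final14N (r s : ℕ) (hr : 1 ≤ r) : ∃ k : ℕ, ∀ (R : Type) [CommRing R]
    [Algebra.FiniteType ℤ R] (ι ψ : R →+* ℂ) (S : CV.Sys R r) (F : Type) [Field F] [Algebra ℂ F]
    (x y f : F) (Sg : Finset (Place ℂ F)) (d : ℕ) (B : Finset ℂ) (c₀ : ℂ),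
    RingHom.ker ι ≤ RingHom.ker ψ → S.P.Monic →
    Irreducible (S.map ι).P → Irreducible (S.map ψ).P → (S.map ψ).D ≠ 0 →
    Transcendental ℂ x → ℂ⟮x, y⟯ = ⊤ → aevalAeval x y (S.map ι).P = 0 →
    Module.finrank ℂ⟮f⟯ F = d → 3 ≤ d → s + 1 ≤ d →
    (s ≤ 3 ∨ IsCoatom ℂ⟮f⟯) → Fib Sg f 0 (-1) d →
    (∀ c ∈ B, Fib Sg f c 2 1 ∧ Fib Sg f c 1 (d - 2)) → (∀ c ∉ B, Fib Sg f c 1 (d - s)) →
    2 * d + k ≤ B.card → c₀ ∈ B →
    Transcendental (IntermediateField.adjoin ℚ {c | c ≠ c₀ ∧ ¬ Fib Sg f c 1 d}) c₀ →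
    (∀ p ∉ Sg, ∀ φ, At φ p → (S.map ι).Loc (φ x) (φ y)) →
    (∀ m : Ideal R, m.IsMaximal → (S.map (Ideal.Quotient.mk m)).Tri) → (S.map ψ).AlgTri := by
  obtain ⟨k, hk⟩ := final14aN r s hr
  have : NeZero r := ⟨by omega⟩
  refine ⟨k, fun R _ _ ι ψ S F _ _ x y f Sg d B c₀ h0 hP hI hI' hD hx hxy hy hdeg hd hs hE
    h1 h2 h2' hg h3 h4 hL hF => alg_specT ι ψ h0 S hP hI ?_ hI' hD⟩
  have hMo : GE.Model x y (S.map ι).P := ⟨hx, hxy, hP.map _, hI, hy⟩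
  have : IsFF F := isFF_of_gen hx hxy hI.ne_zero hy
  obtain ⟨n, t, M, i₀, ht, k1, k2, k3, k7, k6⟩ :=
    exists_listS (by omega) hdeg h1 (fun c hc => (h2 c hc).1) h3 h4
  have k4 := fun i hi => h2 _ ((k7 i).1 hi)
  have k5 := fun i (hi : i ∉ M) => h2' _ fun h => hi ((k7 i).2 h)
  have hf : Transcendental ℂ f := tr_of_rank (by omega)
  obtain ⟨w, hw, hw'⟩ := exists_int hf
  obtain ⟨P', hM'⟩ := GE.exists_model hf hw hw'
  have hd' := hM'.deg.trans hdeg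
  obtain ⟨S', E, rfl, h⟩ := exists_chg (S.map ι) hMo (d_ne h0 hD) hM'
  obtain ⟨R', _, _, ι', S₀, q1, rfl, q2⟩ := transportT ι S hP h hF
  have hL' : ∀ p, p ∉ Sg → ∀ φ, At φ p → (S₀.map ι').Loc (φ f) (φ w) :=
    fun p hp φ hφ => h.loc φ (hL p hp φ hφ)
  exact chg_algT h (hk d n R' ι' S₀ t M i₀ q1 ((q1.natDegree_map _).symm.trans hd') hd hs
    (hE.imp (fun h e _ _ _ => by omega) fun h => primP_of_field hM' (of_coatom h))
    h.D' ht k1 k2 (hg.trans k3)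
    (fun i hi => ⟨unr_fin hM' hL' (k4 i hi).2, loc_bra hM' hL' (k4 i hi).1⟩)
    (fun i hi => unr_fin hM' hL' (k5 i hi))
    (fun c hc => unr_fin hM' hL' (k6 c hc)) (unr_inf hM' hL' (Fib.pls0.1 h1)) hM'.irr q2)

/-- Simple coverings of large genus have many simple branch values. -/
theorem of_simple {F : Type} [Field F] [Algebra ℂ F] [IsFF F] {Sg : Finset (Place ℂ F)} {f : F}
    {d k : ℕ} (h0 : 2 ≤ d) (hdeg : Module.finrank ℂ⟮f⟯ F = d) (h1 : Fib Sg f 0 (-1) d)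
    (h2 : ∀ c, Fib Sg f c 1 (d - 1) ∨ (Fib Sg f c 2 1 ∧ Fib Sg f c 1 (d - 2))) {c₀ : ℂ}
    (h3 : Fib Sg f c₀ 2 1) (hg : k + 1 ≤ genus F) :
    (∀ c, Fib Sg f c 1 (d - 2)) ∧ ∃ B : Finset ℂ, c₀ ∈ B ∧ 2 * d + k ≤ B.card ∧
      ∀ c ∈ B, Fib Sg f c 2 1 ∧ Fib Sg f c 1 (d - 2) := by
  classical
  have h4 : ∀ c, Fib Sg f c 1 (d - 2) := fun c =>
    (h2 c).elim (fun h => fib_mono h (by omega)) fun h => h.2
  obtain ⟨-, B, hB, hc⟩ := fib_data h0 hdeg h1 h2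
  have := Finset.card_le_card (Finset.subset_insert c₀ B)
  exact ⟨h4, insert c₀ B, Finset.mem_insert_self _ _, by omega, fun c hc =>
    ⟨(Finset.mem_insert.1 hc).elim (fun e => e ▸ h3) (hB c), h4 c⟩⟩

end Pool.Agent.GR.FS
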