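import Pool.Agent.Lib.MP_aa40d3_nt.FK.Small
import Pool.Agent.Lib.MP_aa40d3_nt.FK.Nc
import Pool.Agent.Lib.MP_aa40d3_nt.FK.Red

/-! Few sheets; the members are only trivial on one sheet. -/

open Matrix

namespace Pool.Agent.GR.FS

open GC NP FK

section
variable {G G' : Type} [Group G] [Group G'] {d s k : ℕ} {b : BS G d} {b' : BS G' d}
  {S : Finset (Fin d)} {l : List G}

/-- The hypotheses on the generators. -/
structure Sm (b : BS G d) (s k : ℕ) (S : Finset (Fin d)) (l : List G) : Prop where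
  card : S.card = s
  gen : gen l = ⊤
  free : ∀ x ∈ l, ∃ c ∈ S, x ∈ b.K c
  sup : b.Sup ⊤ S
  conn : b.Conn S
  cnt : k ≤ b.cs l

theorem Sm.mono (h : Sm b s k S l) {k' : ℕ} (hk : k' ≤ k) : Sm b s k' S l :=
  ⟨h.1, h.2, h.3, h.4, h.5, hk.trans h.6⟩

theorem swap_map (φ : G →* G') (hπ : ∀ x, b'.π (φ x) = b.π x)
    (hK : ∀ x i, x ∈ b.K i → φ x ∈ b'.K i) {x : G} {i j : Fin d} (h : b.Swap x i j) :
    b'.Swap (φ x) i j :=
  ⟨h.1, (hπ x).trans h.2.1, by rw [← map_mul, h.2.2.1, map_one],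
    fun w a1 a2 => hK x w (h.2.2.2 w a1 a2)⟩

theorem Sm.map (φ : G →* G') (hφ : Function.Surjective φ) (hπ : ∀ x, b'.π (φ x) = b.π x)
    (hK : ∀ x i, x ∈ b.K i → φ x ∈ b'.K i) (h : Sm b s k S l) : Sm b' s k S (l.map φ) := by
  classical
  refine ⟨h.card, ?_, fun y hy => ?_, fun y _ j hj => ?_, fun i hi j hj hij => ?_, h.cnt.trans ?_⟩
  · rw [eq_top_iff, ← MonoidHom.range_eq_top.2 hφ, MonoidHom.range_eq_map, ← h.gen,
      Subgroup.map_le_iff_le_comap, gen_le]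
    exact fun x hx => mem_gen (List.mem_map_of_mem hx)
  · obtain ⟨x, hx, rfl⟩ := List.mem_map.1 hy
    exact (h.free x hx).imp fun c hc => ⟨hc.1, hK x c hc.2⟩
  · obtain ⟨x, rfl⟩ := hφ y
    exact hK x j (h.sup x (Subgroup.mem_top x) j hj)
  · obtain ⟨z, hz⟩ := h.conn i hi j hj hij
    exact ⟨_, swap_map φ hπ hK hz⟩
  · rw [BS.cs, BS.cs, List.countP_map]
    refine List.countP_mono_left fun x _ hx => ?_
    obtain ⟨i, j, hx⟩ := of_decide_eq_true hx
    exact decide_eq_true ⟨i, j, swap_map φ hπ hK hx⟩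

end

theorem finite_smallS (s D : ℕ) (hs : 3 ≤ s) : ∃ k : ℕ, ∀ (d m : ℕ) (G : Type) [Group G]
    (σ : G →* Mt m) (b : BR σ d) (S : Finset (Fin d)) (l : List G), m ≠ 0 → m ≤ D →
    Sm b.bs s k S l → (∀ j, j ∉ S → b.e j = 0) → (∀ i ∈ S, b.Irr1 ⊤ i) →
    LK b.π (fun x => QU (σ x)) l → Finite G := by
  classical
  obtain ⟨k, hk⟩ := finite_listK D (s ^ s)
  refine ⟨k, fun d m G _ σ b S l hm hD ⟨hS, hg, hfr, hsu, hcn, hc⟩ he hi hf => ?_⟩
  have : NeZero m := ⟨hm⟩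
  by_cases h : ∃ x, b.π x = 1 ∧ (∃ c ∈ S, x ∈ b.K c) ∧ x ≠ 1
  · have hI : IrrR σ := b.irr he hcn hi fun i h1 v h2 h3 => b.fixed hsu hcn hi h h1 h2 h3
    refine hk m hm hD G l σ d b.π _ (hS ▸ ker_index b.π S fun x j hj => (hsu x trivial j hj).1)
      hg b.inj hI hf hc fun Z h1 ⟨z, hz, h2⟩ y _ hP => ?_
    by_contra h3
    push Not at h3
    obtain ⟨i, j, h4⟩ := of_decide_eq_true hP
    exact h2 (schur hI fun x => b.nc' hg hfr (hS ▸ hs) he hsu hcn h1 h4 h3 x z hz)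
  · push Not at h
    exact BS.fin_triv' hg hfr (hS ▸ hs) hsu hcn h

/-- The claim for matrices of size `m`. -/
def SmallK (s k m : ℕ) : Prop :=
  ∀ (d : ℕ) (G : Type) [Group G] (σ : G →* Mt m) (b : BR σ d) (S : Finset (Fin d)) (l : List G),
    m ≠ 0 → Sm b.bs s k S l → (∀ j, j ∉ S → b.e j = 0) → LK b.π (fun x => QU (σ x)) l → VU σ

theorem ind_quotK {s k d m : ℕ} {G : Type} [Group G] {σ : G →* Mt m} (b : BR σ d)
    {S : Finset (Fin d)} {l : List G} (hS : Sm b.bs s k S l)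
    (he : ∀ j, j ∉ S → b.e j = 0) (hf : LK b.π (fun x => QU (σ x)) l)
    {E : Mt m} (hE : E * E = E)
    (hEe : ∀ i, E * b.e i = b.e i * E) (hσ : ∀ x y, E * σ x * E * σ y * E = E * σ (x * y) * E)
    (h0 : ∀ i ∈ S, E * b.e i ≠ 0) (hm : E.rank ≠ 0) (ih : SmallK s k E.rank) :
    ∃ (N : Subgroup G) (j : ℕ), N.FiniteIndex ∧ ∀ L : List G, (∀ x ∈ L, x ∈ N) → L.length = j →
      E * (L.map fun x => σ x - 1).prod * E = 0 := by
  obtain ⟨N, hN, σ', b', P, Q, k0, k1, k2, k3, k4⟩ := compressQ b hE hEe hσ hS.sup h0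
  have hL : ∀ x, σ'.comp (QuotientGroup.mk' N) x = sandL Q P (σ x) := k1
  have hπ : ∀ x : G, b'.bs.π (QuotientGroup.mk' N x) = b.bs.π x := k2
  have hK : ∀ (x : G) i, x ∈ b.bs.K i → QuotientGroup.mk' N x ∈ b'.bs.K i := k3
  have : VU σ' := ih d _ σ' b' S (l.map (QuotientGroup.mk' N)) hm
    (hS.map _ (QuotientGroup.mk'_surjective N) hπ hK) (fun j hj => k4 j (he j hj))
    (hf.map _ hπ fun x => QU.of_lin hL)
  obtain ⟨H, j, h1, h2⟩ := this
  refine ⟨H.comap (QuotientGroup.mk' N), j, ⟨?_⟩, fun L k5 k6 => ?_⟩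
  · rw [H.index_comap_of_surjective (QuotientGroup.mk'_surjective N)]
    exact h1.index_ne_zero
  · have h3 := h2 (L.map (QuotientGroup.mk' N)) (fun x hx => by
      obtain ⟨y, hy, rfl⟩ := List.mem_map.1 hx
      exact k5 y hy) (by rw [List.length_map, k6])
    have h4 := lin_prod hL L 1
    rw [map_one, map_one, one_mul, one_mul] at h4
    rw [List.map_map, mul_one] at h3
    have h5 : Q * (L.map fun x => σ x - 1).prod * P = 0 := h4.trans h3
    rw [← k0, ← Matrix.mul_assoc, Matrix.mul_assoc P, Matrix.mul_assoc P, h5, Matrix.mul_zero,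
      Matrix.zero_mul]

theorem vu_smallS (s D : ℕ) (hs : 3 ≤ s) : ∃ k : ℕ, ∀ m ≤ D, SmallK s k m := by
  classical
  obtain ⟨k₁, h₁⟩ := finite_smallS s D hs
  refine ⟨k₁, fun m => ?_⟩
  induction m using Nat.strong_induction_on with
  | _ m ih =>
  intro hD d G _ σ b S l hm hS he hF
  by_cases hI : ∀ i ∈ S, b.Irr1 ⊤ i
  · have := h₁ d m G σ b S l hm hD hS he hI hF
    exact VU.of_finite
  push Not at hI
  obtain ⟨i, hi, hI⟩ := hI
  obtain ⟨Q, q1, q2, q3, q4, q5⟩ := b.exists_proj hS.conn.trans hi hI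
  have hne : ∀ E : Mt m, E * b.e i ≠ 0 → E.rank ≠ 0 := fun E h2 h3 => by
    rw [Matrix.rank, Submodule.finrank_eq_zero, LinearMap.range_eq_bot, ← toLin'_apply',
      LinearEquiv.map_eq_zero_iff] at h3
    exact h2 (by rw [h3, zero_mul])
  have p1 : (1 - Q) * (1 - Q) = 1 - Q := by
    rw [mul_sub, sub_mul, sub_mul, q1, mul_one, mul_one, one_mul, sub_self, sub_zero]
  have p2 : ∀ x, (1 - Q) * σ x * Q = 0 := fun x => by
    rw [sub_mul, sub_mul, one_mul, q3, sub_self]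
  have p4 : (1 - Q) * Q = 0 := by rw [sub_mul, q1, one_mul, sub_self]
  have m1 : ∀ x y, Q * σ x * Q * σ y * Q = Q * σ (x * y) * Q := fun x y => by
    rw [mul_assoc (Q * σ x), mul_assoc (Q * σ x), q3, map_mul]
    simp only [mul_assoc]
  have m2 : ∀ x y, (1 - Q) * σ x * (1 - Q) * σ y * (1 - Q) = (1 - Q) * σ (x * y) * (1 - Q) :=
    fun x y => by rw [mul_sub ((1 - Q) * σ x), p2, mul_one, sub_zero, map_mul, ← mul_assoc]
  have hr1 := hne Q (q4 i hi)
  have hr2 := hne _ (q5 i hi)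
  have hrk := rank_idem q1
  obtain ⟨N₁, j₁, n1, n2⟩ := ind_quotK b hS he hF q1 q2 m1 q4 hr1
    (ih _ (by omega) (by omega))
  obtain ⟨N₂, j₂, n3, n4⟩ := ind_quotK b hS he hF p1
    (fun j => by rw [sub_mul, mul_sub, one_mul, mul_one, q2]) m2 q5 hr2 (ih _ (by omega) (by omega))
  have inv : ∀ L : List G, (1 - Q) * (L.map fun x => σ x - 1).prod * Q = 0 := fun L => by
    induction L with
    | nil => simpa using p4
    | cons x L ih =>
      have h1 : (L.map fun x => σ x - 1).prod * Q = Q * ((L.map fun x => σ x - 1).prod * Q) := by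
        rw [mul_assoc, sub_mul, one_mul, sub_eq_zero] at ih
        exact ih
      rw [List.map_cons, List.prod_cons, mul_assoc, mul_assoc, h1, ← mul_assoc, ← mul_assoc,
        mul_sub (1 - Q), sub_mul, p2, mul_one, p4, sub_zero, zero_mul]
  refine ⟨N₁ ⊓ N₂, j₁ + j₂, inferInstance, fun L k1 k2 => ?_⟩
  have a1 := n2 (L.take j₁) (fun x hx => (k1 x (List.mem_of_mem_take hx)).1)
    (by rw [List.length_take]; omega)
  have a2 := n4 (L.drop j₁) (fun x hx => (k1 x (List.mem_of_mem_drop hx)).2)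
    (by rw [List.length_drop]; omega)
  have a3 := inv (L.take j₁)
  have a4 := inv (L.drop j₁)
  rw [← L.take_append_drop j₁, List.map_append, List.prod_append, mul_one]
  generalize ((L.take j₁).map fun x => σ x - 1).prod = U at a1 a3
  generalize ((L.drop j₁).map fun x => σ x - 1).prod = V at a2 a4
  calc U * V = (Q * U * Q + (1 - Q) * U * Q) * V +
        U * ((1 - Q) * V * (1 - Q) + (1 - Q) * V * Q) := by noncomm_ring
    _ = 0 := by rw [a1, a2, a3, a4, add_zero, zero_mul, mul_zero, add_zero]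

end Pool.Agent.GR.FS
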