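import Pool.Agent.Lib.MP_aa40d3_nt.FS.Small
import Pool.Agent.Lib.MP_aa40d3_nt.FK.SmallF

/-! Few sheets, finite orders; the members are only trivial on one sheet. -/

open Matrix

namespace Pool.Agent.GR.FS

open GC NP FK

/-- The claim for matrices of size `m`. -/
def SmallF (s k m : ℕ) : Prop :=
  ∀ (d : ℕ) (G : Type) [Group G] (σ : G →* Mt m) (b : BR σ d) (S : Finset (Fin d)) (l : List G),
    m ≠ 0 → Sm b.bs s k S l → (∀ j, j ∉ S → b.e j = 0) → LK b.π IsOfFinOrder l → Finite G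

theorem ind_quotF {s k d m : ℕ} {G : Type} [Group G] {σ : G →* Mt m} (b : BR σ d)
    {S : Finset (Fin d)} {l : List G} (hS : Sm b.bs s k S l)
    (he : ∀ j, j ∉ S → b.e j = 0) (hf : LK b.π IsOfFinOrder l)
    {E : Mt m} (hE : E * E = E)
    (hEe : ∀ i, E * b.e i = b.e i * E) (hσ : ∀ x y, E * σ x * E * σ y * E = E * σ (x * y) * E)
    (h0 : ∀ i ∈ S, E * b.e i ≠ 0) (hm : E.rank ≠ 0) (ih : SmallF s k E.rank) :
    ∃ N : Subgroup G, N.FiniteIndex ∧ (∀ x ∈ N, E * σ x * E = E) ∧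
      ∀ x, E * σ x * E = E → b.π x = 1 := by
  obtain ⟨N, hN, σ', b', k1, k2, k3, k4⟩ := b.compress hE hEe hσ hS.sup h0
  have hπ : ∀ x : G, b'.bs.π (QuotientGroup.mk' N x) = b.bs.π x := k2
  have hK : ∀ (x : G) i, x ∈ b.bs.K i → QuotientGroup.mk' N x ∈ b'.bs.K i := k3
  have : Finite (G ⧸ N) := ih d _ σ' b' S (l.map (QuotientGroup.mk' N)) hm
    (hS.map _ (QuotientGroup.mk'_surjective N) hπ hK) (fun j hj => k4 j (he j hj))
    (hf.map _ hπ fun _ => MonoidHom.isOfFinOrder _)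
  exact ⟨N, Subgroup.finiteIndex_of_finite_quotient, fun x hx => (k1 x).1 hx, fun x hx => by
    rw [← k2, (QuotientGroup.eq_one_iff x).2 ((k1 x).2 hx), map_one]⟩

theorem finite_smallFS (s D : ℕ) (hs : 3 ≤ s) : ∃ k : ℕ, ∀ m ≤ D, SmallF s k m := by
  classical
  obtain ⟨k₁, h₁⟩ := finite_smallS s D hs
  choose f hf using centralK
  refine ⟨max k₁ ((Finset.range (D + 1)).sup f), fun m => ?_⟩
  induction m using Nat.strong_induction_on with
  | _ m ih =>
  intro hD d G _ σ b S l hm hS he hF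
  by_cases hI : ∀ i ∈ S, b.Irr1 ⊤ i
  · exact h₁ d m G σ b S l hm hD (hS.mono (le_max_left _ _)) he hI
      fun A B h h' => qu_of_fin σ (hF A B h h')
  push Not at hI
  obtain ⟨i, hi, hI⟩ := hI
  obtain ⟨Q, q1, q2, q3, q4, q5⟩ := b.exists_proj hS.conn.trans hi hI
  have hne : ∀ E : Mt m, E * b.e i ≠ 0 → E.rank ≠ 0 := fun E h2 h3 => by
    rw [Matrix.rank, Submodule.finrank_eq_zero, LinearMap.range_eq_bot, ← toLin'_apply',
      LinearEquiv.map_eq_zero_iff] at h3
    exact h2 (by rw [h3, zero_mul])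
  have p1 : (1 - Q) * (1 - Q) = 1 - Q := by
    rw [mul_sub, sub_mul, sub_mul, q1, mul_one, mul_one, one_mul, sub_self, sub_zero]
  have p2 : ∀ x, (1 - Q) * σ x * Q = 0 := fun x => by
    rw [sub_mul, sub_mul, one_mul, q3, sub_self]
  have p3 : Q * (1 - Q) = 0 := by rw [mul_sub, q1, mul_one, sub_self]
  have p4 : (1 - Q) * Q = 0 := by rw [sub_mul, q1, one_mul, sub_self]
  have m1 : ∀ x y, Q * σ x * Q * σ y * Q = Q * σ (x * y) * Q := fun x y => by
    rw [mul_assoc (Q * σ x), mul_assoc (Q * σ x), q3, map_mul]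
    simp only [mul_assoc]
  have m2 : ∀ x y, (1 - Q) * σ x * (1 - Q) * σ y * (1 - Q) = (1 - Q) * σ (x * y) * (1 - Q) :=
    fun x y => by rw [mul_sub ((1 - Q) * σ x), p2, mul_one, sub_zero, map_mul, ← mul_assoc]
  have hr1 := hne Q (q4 i hi)
  have hr2 := hne _ (q5 i hi)
  have hrk := rank_idem q1
  obtain ⟨N₁, n1, n2, n5⟩ := ind_quotF b hS he hF q1 q2 m1 q4 hr1
    (ih _ (by omega) (by omega))
  obtain ⟨N₂, n3, n4, -⟩ := ind_quotF b hS he hF p1
    (fun j => by rw [sub_mul, mul_sub, one_mul, mul_one, q2]) m2 q5 hr2 (ih _ (by omega) (by omega))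
  let ρ : G →* Mt m :=
    { toFun := fun x => Q * σ x * Q + (1 - Q) * σ x * (1 - Q)
      map_one' := by rw [map_one, mul_one, mul_one, q1, p1, add_sub_cancel]
      map_mul' := fun x y => by
        rw [← m1, ← m2]
        simp only [mul_add, add_mul, ← mul_assoc]
        rw [mul_assoc _ Q Q, q1, mul_assoc _ Q (1 - Q), p3, mul_assoc _ (1 - Q) Q, p4,
          mul_assoc _ (1 - Q) (1 - Q), p1]
        simp }
  have hρ : ∀ x, σ x = ρ x + Q * σ x * (1 - Q) := fun x => by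
    have h := p2 x
    change _ = Q * σ x * Q + (1 - Q) * σ x * (1 - Q) + _
    rw [← sub_eq_zero, ← h]
    noncomm_ring
  have hfi : ρ.ker.FiniteIndex := Subgroup.finiteIndex_of_le (H := N₁ ⊓ N₂) fun x hx => by
    change Q * σ x * Q + (1 - Q) * σ x * (1 - Q) = 1
    rw [n2 x hx.1, n4 x hx.2, add_sub_cancel]
  have htf : ∀ w ∈ ρ.ker, IsOfFinOrder w → w = 1 := fun w hw h => by
    obtain ⟨n, hn, e⟩ := isOfFinOrder_iff_pow_eq_one.1 h
    have h1 := hρ w
    rw [MonoidHom.mem_ker.1 hw] at h1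
    have h2 := congrArg σ e
    rw [map_pow, h1, ind_unip (by
      rw [mul_assoc Q, mul_assoc Q, mul_assoc (σ w), ← mul_assoc (1 - Q), p4, zero_mul, mul_zero,
        mul_zero]), map_one, add_eq_left, smul_eq_zero] at h2
    refine b.inj ?_
    rw [h1, h2.resolve_left (Nat.cast_ne_zero.2 hn.ne'), add_zero, map_one]
  have hπ : ρ.ker ≤ b.π.ker := fun x hx => n5 x (by
    have h : Q * σ x * Q + (1 - Q) * σ x * (1 - Q) = 1 := hx
    have h2 := congrArg (· * Q) h
    simp only [add_mul, mul_assoc, q1, p4, mul_zero, add_zero, one_mul] at h2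
    rwa [mul_assoc])
  obtain ⟨x, ⟨u, v, hx⟩, hc'⟩ : ∃ x, (∃ u v, b.bs.Swap x u v) ∧ ∀ w ∈ ρ.ker, x * w = w * x := by
    obtain ⟨x, h2, h3⟩ := hf m G ρ (fun x => decide (b.bs.IsSw x)) d b.π hπ hfi
      (fun γ x h => by
        obtain ⟨u, v, h⟩ := of_decide_eq_true h
        exact decide_eq_true ⟨_, _, h.conj γ⟩)
      (fun x h => by
        obtain ⟨u, v, h⟩ := of_decide_eq_true h
        exact h.2.2.1) htf l hS.gen hF
      (((Finset.le_sup (f := f) (Finset.mem_range.2 (by omega))).trans (le_max_right _ _)).trans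
        hS.cnt)
    exact ⟨x, (of_decide_eq_true h2 : b.bs.IsSw x), h3⟩
  have hcen : ρ.ker ≤ Subgroup.center G := fun w hw => Subgroup.mem_center_iff.2 fun y => b.inj (by
    rw [map_mul, map_mul]
    refine b.nc' hS.gen hS.free (hS.card ▸ hs) he hS.sup hS.conn
      (B := Algebra.adjoin ℂ (σ '' ρ.ker)) (fun γ z hz => ?_) hx
      (fun z hz => (Algebra.commute_of_mem_adjoin_of_forall_mem_commute hz ?_).eq) y _
      (Algebra.subset_adjoin ⟨w, hw, rfl⟩)
    · induction hz using Algebra.adjoin_induction with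
      | mem z hz =>
        obtain ⟨z, hz, rfl⟩ := hz
        exact Algebra.subset_adjoin ⟨_, ρ.normal_ker.conj_mem z hz γ, by rw [map_mul, map_mul]⟩
      | algebraMap c =>
        rw [← Algebra.commutes, mul_assoc, rep_mul_inv, mul_one]
        exact Subalgebra.algebraMap_mem _ c
      | add y z _ _ hy hz =>
        rw [mul_add, add_mul]
        exact Subalgebra.add_mem _ hy hz
      | mul y z _ _ hy hz =>
        have := Subalgebra.mul_mem _ hy hz
        rwa [mul_assoc, ← mul_assoc (σ γ⁻¹), ← mul_assoc (σ γ⁻¹), rep_inv_mul, one_mul,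
          ← mul_assoc, mul_assoc _ y] at this
    · rintro _ ⟨z, hz, rfl⟩
      change σ x * σ z = σ z * σ x
      rw [← map_mul, hc' z hz, map_mul])
  have : (Subgroup.center G).FiniteIndex := Subgroup.finiteIndex_of_le hcen
  have hb : ρ.ker = ⊥ := (Subgroup.eq_bot_iff_forall _).2 fun w hw =>
    htf w hw (torsion_of_center hS.gen (fun y hy => hF.mem hy) w)
  rw [hb] at hfi
  exact Nat.finite_of_card_ne_zero (Subgroup.index_bot (G := G) ▸ hfi.index_ne_zero)

end Pool.Agent.GR.FS
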